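import Pool.Agent.Q180.FI.Ext

/-!
# Algebras with given structure constants
-/

set_option autoImplicit false

namespace Pool.Agent.Q180.FI

open scoped TensorProduct PowerSeries Topology
open Pool.Agent.H826R3.SM Pool.Agent.TH671.DU Pool.Agent.Q180.SC Filter

variable {ι : Type} [Fintype ι] [DecidableEq ι]

/-- the equations for the structure constants of a commutative algebra in which the basis element
number `o` is `1` -/
def IsAlgC {R : Type} [CommRing R] (o : ι) (c : ι × ι × ι → R) : Prop :=
  (∀ j l, c (o, j, l) = if j = l then 1 else 0) ∧ (∀ i j l, c (i, j, l) = c (j, i, l)) ∧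
    ∀ i j p n, ∑ l, c (i, j, l) * c (l, p, n) = ∑ l, c (j, p, l) * c (i, l, n)

theorem isAlgC_of_isStr {k : Type} [Field k] {o : ι} {c : ι × ι × ι → k} {A : Type} [CommRing A]
    [Algebra k A] {v : Module.Basis ι k A} (h : Str.IsStr o c A v) : IsAlgC o c := by
  have hr : ∀ (g : ι → k) (n : ι), v.repr (∑ l, g l • v l) n = g n := by
    intro g n
    rw [v.repr_sum_self]
  refine ⟨fun j l => ?_, fun i j l => ?_, fun i j p n => ?_⟩
  · have h1 := h.2 o j
    rw [h.1, one_mul] at h1
    rw [← hr (fun l => c (o, j, l)) l, ← h1, Module.Basis.repr_self, Finsupp.single_apply]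
  · rw [← hr (fun l => c (i, j, l)) l, ← h.2, mul_comm, h.2, hr]
  · have h1 : v i * v j * v p = ∑ n, (∑ l, c (i, j, l) * c (l, p, n)) • v n := by
      rw [h.2, Finset.sum_mul]
      simp only [Finset.sum_smul]
      rw [Finset.sum_comm]
      refine Finset.sum_congr rfl fun l _ => ?_
      rw [smul_mul_assoc, h.2, Finset.smul_sum]
      exact Finset.sum_congr rfl fun n _ => smul_smul _ _ _
    have h2 : v i * v j * v p = ∑ n, (∑ l, c (j, p, l) * c (i, l, n)) • v n := by
      rw [mul_assoc, h.2 j p, Finset.mul_sum]
      simp only [Finset.sum_smul]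
      rw [Finset.sum_comm]
      refine Finset.sum_congr rfl fun l _ => ?_
      rw [mul_smul_comm, h.2, Finset.smul_sum]
      exact Finset.sum_congr rfl fun n _ => smul_smul _ _ _
    rw [← hr (fun n => ∑ l, c (i, j, l) * c (l, p, n)) n, ← h1, h2, hr]

section construct

variable {k : Type} [Field k] {o : ι} {c : ι × ι × ι → k}

/-- the matrix of the multiplication by the basis element number `i` -/
def mat (c : ι × ι × ι → k) (i : ι) : Matrix ι ι k := Matrix.of fun n l => c (i, l, n)

omit [Field k] [Fintype ι] [DecidableEq ι] in
theorem mat_apply (i n l : ι) : mat c i n l = c (i, l, n) := rfl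

theorem mat_mul (h : IsAlgC o c) (i j : ι) : mat c i * mat c j = ∑ l, c (i, j, l) • mat c l := by
  ext n p
  rw [Matrix.mul_apply, Matrix.sum_apply]
  simp only [Matrix.smul_apply, mat_apply, smul_eq_mul]
  rw [h.2.2 i j p n]
  exact Finset.sum_congr rfl fun l _ => mul_comm _ _

theorem mat_one (h : IsAlgC o c) : mat c o = 1 := by
  ext n l
  rw [mat_apply, h.1, Matrix.one_apply]
  simp only [eq_comm]

theorem mat_comm (h : IsAlgC o c) (i j : ι) : mat c i * mat c j = mat c j * mat c i := by
  rw [mat_mul h, mat_mul h]
  exact Finset.sum_congr rfl fun l _ => by rw [h.2.1 i j l]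

/-- the subalgebra of the matrices -/
def matAlg (h : IsAlgC o c) : Subalgebra k (Matrix ι ι k) where
  carrier := Submodule.span k (Set.range (mat c))
  mul_mem' := by
    intro x y hx hy
    change x * y ∈ Submodule.span k (Set.range (mat c))
    induction hx using Submodule.span_induction with
    | mem x hx =>
      obtain ⟨i, rfl⟩ := hx
      induction hy using Submodule.span_induction with
      | mem y hy =>
        obtain ⟨j, rfl⟩ := hy
        rw [mat_mul h]
        exact Submodule.sum_mem _ fun l _ => Submodule.smul_mem _ _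
          (Submodule.subset_span ⟨l, rfl⟩)
      | zero =>
        rw [mul_zero]
        exact Submodule.zero_mem _
      | add y z _ _ hy hz =>
        rw [mul_add]
        exact Submodule.add_mem _ hy hz
      | smul a y _ hy =>
        rw [mul_smul_comm]
        exact Submodule.smul_mem _ a hy
    | zero =>
      rw [zero_mul]
      exact Submodule.zero_mem _
    | add x z _ _ hx hz =>
      rw [add_mul]
      exact Submodule.add_mem _ hx hz
    | smul a x _ hx =>
      rw [smul_mul_assoc]
      exact Submodule.smul_mem _ a hx
  add_mem' := fun {x y} hx hy => Submodule.add_mem _ hx hy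
  algebraMap_mem' := by
    intro a
    change algebraMap k (Matrix ι ι k) a ∈ Submodule.span k (Set.range (mat c))
    rw [Algebra.algebraMap_eq_smul_one, ← mat_one h]
    exact Submodule.smul_mem _ _ (Submodule.subset_span ⟨o, rfl⟩)

theorem matAlg_comm (h : IsAlgC o c) (x y : matAlg h) : x * y = y * x := by
  obtain ⟨x, hx⟩ := x
  obtain ⟨y, hy⟩ := y
  apply Subtype.ext
  change x * y = y * x
  change x ∈ Submodule.span k (Set.range (mat c)) at hx
  change y ∈ Submodule.span k (Set.range (mat c)) at hy
  induction hx using Submodule.span_induction with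
  | mem x hx =>
    obtain ⟨i, rfl⟩ := hx
    induction hy using Submodule.span_induction with
    | mem y hy =>
      obtain ⟨j, rfl⟩ := hy
      exact mat_comm h i j
    | zero => rw [mul_zero, zero_mul]
    | add y z _ _ hy hz => rw [mul_add, add_mul, hy, hz]
    | smul a y _ hy => rw [mul_smul_comm, smul_mul_assoc, hy]
  | zero => rw [mul_zero, zero_mul]
  | add x z _ _ hx hz => rw [mul_add, add_mul, hx, hz]
  | smul a x _ hx => rw [mul_smul_comm, smul_mul_assoc, hx]

/-- **The algebra with given structure constants.** -/
theorem exists_algebra (h : IsAlgC o c) : ∃ (A : Type) (_ : CommRing A) (_ : Algebra k A)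
    (v : Module.Basis ι k A), Str.IsStr o c A v := by
  let inst : CommRing (matAlg h) :=
    { (inferInstance : Ring (matAlg h)) with mul_comm := matAlg_comm h }
  let v₀ : ι → matAlg h := fun i => ⟨mat c i, Submodule.subset_span ⟨i, rfl⟩⟩
  have hli : LinearIndependent k v₀ := by
    rw [Fintype.linearIndependent_iff]
    intro g hg n
    have h1 : ∑ i, g i • mat c i = 0 := by
      have h2 := congrArg Subtype.val hg
      rw [AddSubmonoidClass.coe_finsetSum] at h2
      exact h2
    have h2 := congrFun (congrFun h1 n) o
    rw [Matrix.sum_apply] at h2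
    simp only [Matrix.smul_apply, mat_apply, smul_eq_mul, Matrix.zero_apply] at h2
    rw [Finset.sum_eq_single n] at h2
    · rw [h.2.1, h.1, if_pos rfl, mul_one] at h2
      exact h2
    · intro i _ hi
      rw [h.2.1, h.1, if_neg hi, mul_zero]
    · intro hc
      exact absurd (Finset.mem_univ _) hc
  have hsp : ⊤ ≤ Submodule.span k (Set.range v₀) := by
    rintro ⟨x, hx⟩ -
    change x ∈ Submodule.span k (Set.range (mat c)) at hx
    induction hx using Submodule.span_induction with
    | mem x hx =>
      obtain ⟨i, rfl⟩ := hx
      exact Submodule.subset_span ⟨i, rfl⟩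
    | zero => exact Submodule.zero_mem _
    | add x z hx' hz' hx hz => exact Submodule.add_mem _ hx hz
    | smul a x _ hx => exact Submodule.smul_mem _ a hx
  refine ⟨matAlg h, inst, inferInstance, Module.Basis.mk hli hsp, ?_, fun i j => ?_⟩
  · rw [Module.Basis.mk_apply]
    exact Subtype.ext (mat_one h)
  · rw [Module.Basis.mk_apply, Module.Basis.mk_apply]
    apply Subtype.ext
    rw [AddSubmonoidClass.coe_finsetSum]
    change mat c i * mat c j = _
    rw [mat_mul h]
    refine Finset.sum_congr rfl fun l _ => ?_
    rw [Module.Basis.mk_apply]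
    rfl

end construct

end Pool.Agent.Q180.FI
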