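import Pool.Agent.Q180.FI.Alg

/-!
# Algebras over a subfield are dense
-/

set_option autoImplicit false

namespace Pool.Agent.Q180.FI

open scoped TensorProduct PowerSeries Topology
open Pool.Agent.H826R3.SM Pool.Agent.TH671.DU Pool.Agent.Q180.SC Filter

variable {ι : Type} [Fintype ι] [DecidableEq ι] {o : ι}

/-- the equations for structure constants along ring homomorphisms -/
theorem isAlgC_of_ker {R S T : Type} [CommRing R] [CommRing S] [CommRing T] (f : R →+* S)
    (g : R →+* T) (hfg : ∀ x, f x = 0 → g x = 0) {c : ι × ι × ι → R} (h : IsAlgC o (f ∘ c)) :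
    IsAlgC o (g ∘ c) := by
  have key : ∀ x y, f x = f y → g x = g y := by
    intro x y hxy
    have h1 := hfg (x - y) (by rw [map_sub, hxy, sub_self])
    rw [map_sub, sub_eq_zero] at h1
    exact h1
  refine ⟨fun j l => ?_, fun i j l => ?_, fun i j p n => ?_⟩
  · have h1 := h.1 j l
    have h2 : (if j = l then (1 : S) else 0) = f (if j = l then 1 else 0) := by
      split_ifs <;> simp
    rw [h2] at h1
    have h3 := key _ _ h1
    rw [Function.comp_apply, h3]
    split_ifs <;> simp
  · exact key _ _ (h.2.1 i j l)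
  · have h1 : f (∑ l, c (i, j, l) * c (l, p, n)) = f (∑ l, c (j, p, l) * c (i, l, n)) := by
      rw [map_sum, map_sum]
      simp only [map_mul]
      exact h.2.2 i j p n
    have h2 := key _ _ h1
    rw [map_sum, map_sum] at h2
    simp only [map_mul] at h2
    exact h2

theorem nilp_of_ker {R S T : Type} [CommRing R] [CommRing S] [CommRing T] (f : R →+* S)
    (g : R →+* T) (hfg : ∀ x, f x = 0 → g x = 0) {c : ι × ι × ι → R} {e : ℕ}
    (h : Nilp o (f ∘ c) e) : Nilp o (g ∘ c) e := by
  intro s hs l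
  rw [mc_map]
  refine hfg _ ?_
  rw [← mc_map]
  exact h s hs l

theorem isLocalRing_of_nilp {k : Type} [Field k] {c : ι × ι × ι → k} {A : Type} [CommRing A]
    [Algebra k A] {v : Module.Basis ι k A} (h : Str.IsStr o c A v) {e : ℕ} (hn : Nilp o c e) :
    IsLocalRing A := by
  have hnt : Nontrivial A := ⟨⟨v o, 0, v.ne_zero o⟩⟩
  have hv : ∀ i, i ≠ o → IsNilpotent (v i) := by
    intro i hi
    refine ⟨e + 1, ?_⟩
    have h1 := nil_of_nilp h hn (Finsupp.single ⟨i, hi⟩ (e + 1)) (by
      rw [Finsupp.degree_single]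
      omega)
    have h2 : MvPolynomial.monomial (Finsupp.single (⟨i, hi⟩ : Nx o) (e + 1)) (1 : k) =
        MvPolynomial.X ⟨i, hi⟩ ^ (e + 1) := (MvPolynomial.X_pow_eq_monomial).symm
    rw [h2, map_pow, crd0_X] at h1
    exact h1
  have hx : ∀ x : A, ∃ y, IsNilpotent y ∧ x = algebraMap k A (v.repr x o) + y := by
    intro x
    refine ⟨∑ i ∈ Finset.univ.erase o, v.repr x i • v i, ?_, ?_⟩
    · refine isNilpotent_sum fun i hi => ?_
      exact (hv i (Finset.ne_of_mem_erase hi)).smul _
    · conv_lhs => rw [← v.sum_repr x, ← Finset.add_sum_erase _ _ (Finset.mem_univ o), h.1]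
      rw [Algebra.algebraMap_eq_smul_one]
  refine IsLocalRing.of_isUnit_or_isUnit_one_sub_self fun x => ?_
  obtain ⟨y, hy, hxy⟩ := hx x
  by_cases h0 : v.repr x o = 0
  · right
    rw [h0, map_zero, zero_add] at hxy
    rw [hxy]
    exact hy.isUnit_one_sub
  · left
    have h1 : IsUnit (algebraMap k A (v.repr x o)) := (isUnit_iff_ne_zero.2 h0).map _
    rw [hxy]
    exact hy.isUnit_add_left_of_commute h1 (Commute.all _ _)

variable {K L : Type} [Field K] [IsAlgClosed K] [Field L] [Algebra K L]

/-- **Density** of the points over `K` which satisfy a closed condition defined over `K`. -/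
theorem inClosure_of_eqs {θ : Type} [Finite θ] (c : θ → L) (X₀ : Set (θ → K))
    (hX : ∀ c₀ : θ → K, (∀ F : MvPolynomial θ K, MvPolynomial.aeval c F = 0 →
      MvPolynomial.eval c₀ F = 0) → c₀ ∈ X₀) :
    InClosure ((fun c₀ : θ → K => algebraMap K L ∘ c₀) '' X₀) c := by
  classical
  -- polynomials over `K`
  have key : ∀ F : MvPolynomial θ K, (∀ c₀ ∈ X₀, MvPolynomial.eval c₀ F = 0) →
      MvPolynomial.aeval c F = 0 := by
    intro F hF
    let I : Ideal (MvPolynomial θ K) := RingHom.ker (MvPolynomial.aeval c : MvPolynomial θ K →ₐ[K] L)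
    have hI : I.IsPrime := RingHom.ker_isPrime _
    have h1 : F ∈ MvPolynomial.vanishingIdeal K (MvPolynomial.zeroLocus K I) := by
      rw [MvPolynomial.mem_vanishingIdeal_iff]
      intro c₀ hc₀
      rw [MvPolynomial.mem_zeroLocus_iff] at hc₀
      have h2 : c₀ ∈ X₀ := hX c₀ fun G hG => by
        have h3 := hc₀ G hG
        rwa [MvPolynomial.aeval_eq_eval] at h3
      rw [MvPolynomial.aeval_eq_eval]
      exact hF c₀ h2
    rw [MvPolynomial.vanishingIdeal_zeroLocus_eq_radical, hI.radical] at h1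
    exact h1
  intro P hP
  let b := Module.Basis.ofVectorSpace K L
  let comp : Module.Basis.ofVectorSpaceIndex K L → MvPolynomial θ K := fun j =>
    ∑ s ∈ P.support, MvPolynomial.monomial s (b.repr (P.coeff s) j)
  have hcomp : ∀ j, MvPolynomial.aeval c (comp j) = 0 := by
    intro j
    refine key _ fun c₀ hc₀ => ?_
    have h1 := hP _ ⟨c₀, hc₀, rfl⟩
    rw [MvPolynomial.eval_eq] at h1
    have h2 : ∑ d ∈ P.support, P.coeff d * ∏ i ∈ d.support, (algebraMap K L ∘ c₀) i ^ d i =
        ∑ d ∈ P.support, (∏ i ∈ d.support, c₀ i ^ d i) • P.coeff d := by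
      refine Finset.sum_congr rfl fun d _ => ?_
      rw [Algebra.smul_def, map_prod, mul_comm]
      simp only [Function.comp_apply, map_pow]
    rw [h2] at h1
    have h3 := congrArg (fun x => b.repr x j) h1
    simp only [map_sum, map_smul, map_zero, Finsupp.coe_zero, Pi.zero_apply] at h3
    rw [Finset.sum_apply'] at h3
    simp only [Finsupp.smul_apply, smul_eq_mul] at h3
    rw [map_sum]
    refine Eq.trans ?_ h3
    refine Finset.sum_congr rfl fun d _ => ?_
    rw [MvPolynomial.eval_monomial, mul_comm]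
    rfl
  -- the value of `P`
  rw [MvPolynomial.eval_eq]
  have h4 : ∀ d ∈ P.support, P.coeff d * ∏ i ∈ d.support, c i ^ d i =
      ∑ j ∈ (P.support.biUnion fun s => (b.repr (P.coeff s)).support),
        b.repr (P.coeff d) j • (b j * ∏ i ∈ d.support, c i ^ d i) := by
    intro d hd
    conv_lhs => rw [← b.linearCombination_repr (P.coeff d), Finsupp.linearCombination_apply,
      Finsupp.sum]
    rw [Finset.sum_subset (Finset.subset_biUnion_of_mem
      (fun s => (b.repr (P.coeff s)).support) hd), Finset.sum_mul]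
    · refine Finset.sum_congr rfl fun j _ => ?_
      rw [smul_mul_assoc]
    · intro j _ hj
      rw [Finsupp.notMem_support_iff.1 hj, zero_smul]
  rw [Finset.sum_congr rfl h4, Finset.sum_comm]
  refine Finset.sum_eq_zero fun j _ => ?_
  have h5 := hcomp j
  rw [map_sum] at h5
  have h6 : ∑ d ∈ P.support, b.repr (P.coeff d) j • (b j * ∏ i ∈ d.support, c i ^ d i) =
      b j * ∑ d ∈ P.support, MvPolynomial.aeval c
        (MvPolynomial.monomial d (b.repr (P.coeff d) j) : MvPolynomial θ K) := by
    rw [Finset.mul_sum]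
    refine Finset.sum_congr rfl fun d _ => ?_
    rw [MvPolynomial.aeval_monomial, Algebra.smul_def]
    change _ = b j * (algebraMap K L _ * ∏ i ∈ d.support, c i ^ d i)
    ring
  rw [h6, h5, mul_zero]

/-- **Rates over a larger field**: local algebras -/
theorem rate_le_of_local [IsAlgClosed L] (m : ℕ) (x : ℝ)
    (hK : ∀ (A : Type) [CommRing A] [Algebra K A] [Module.Finite K A] [IsLocalRing A],
      Module.finrank K A = m + 1 → rate K A ≤ x)
    (B : Type) [CommRing B] [Algebra L B] [Module.Finite L B] [IsLocalRing B]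
    (hB : Module.finrank L B = m + 1) : rate L B ≤ x := by
  obtain ⟨c, w, h1, h2⟩ := exists_basis B m hB
  have hn := h2 inferInstance
  let X₀ : Set (Fin (m + 1) × Fin (m + 1) × Fin (m + 1) → K) :=
    {c₀ | IsAlgC 0 c₀ ∧ Nilp 0 c₀ (m + 1)}
  let ψ : MvPolynomial (Fin (m + 1) × Fin (m + 1) × Fin (m + 1)) K →+* L :=
    (MvPolynomial.aeval c : MvPolynomial _ K →ₐ[K] L).toRingHom
  have hψ : ψ ∘ MvPolynomial.X = c := by
    funext q
    exact MvPolynomial.aeval_X _ _
  have hc : InClosure ((fun c₀ => algebraMap K L ∘ c₀) '' X₀) c := by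
    refine inClosure_of_eqs c X₀ fun c₀ hc₀ => ?_
    have hev : (MvPolynomial.eval c₀ : MvPolynomial _ K →+* K) ∘ MvPolynomial.X = c₀ := by
      funext q
      exact MvPolynomial.eval_X _
    constructor
    · rw [← hev]
      exact isAlgC_of_ker ψ _ hc₀ (by rw [hψ]; exact isAlgC_of_isStr h1)
    · rw [← hev]
      exact nilp_of_ker ψ _ hc₀ (by rw [hψ]; exact hn)
  refine Str.rate_limit (k := L) 0 (S := (fun c₀ => algebraMap K L ∘ c₀) '' X₀) ?_ hc h1
  rintro _ ⟨c₀, ⟨h3, h4⟩, rfl⟩
  obtain ⟨A, i1, i2, v, hv⟩ := exists_algebra h3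
  refine ⟨L ⊗[K] A, inferInstance, inferInstance, Algebra.TensorProduct.basis L v,
    isStr_baseChange hv, ?_⟩
  have hfin : Module.Finite K A := Module.Finite.of_basis v
  have hnt : Nontrivial A := ⟨⟨v 0, 0, v.ne_zero 0⟩⟩
  rw [rate_tensor]
  have hloc : IsLocalRing A := isLocalRing_of_nilp hv h4
  refine hK A ?_
  rw [Module.finrank_eq_card_basis v, Fintype.card_fin]

/-- **Rates over a larger field**: all algebras -/
theorem rate_le_of_all [IsAlgClosed L] (m : ℕ) (x : ℝ)
    (hK : ∀ (A : Type) [CommRing A] [Algebra K A] [Module.Finite K A] [Nontrivial A],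
      Module.finrank K A = m + 1 → rate K A ≤ x)
    (B : Type) [CommRing B] [Algebra L B] [Module.Finite L B] [Nontrivial B]
    (hB : Module.finrank L B = m + 1) : rate L B ≤ x := by
  obtain ⟨c, w, h1, -⟩ := exists_basis B m hB
  let X₀ : Set (Fin (m + 1) × Fin (m + 1) × Fin (m + 1) → K) := {c₀ | IsAlgC 0 c₀}
  let ψ : MvPolynomial (Fin (m + 1) × Fin (m + 1) × Fin (m + 1)) K →+* L :=
    (MvPolynomial.aeval c : MvPolynomial _ K →ₐ[K] L).toRingHom
  have hψ : ψ ∘ MvPolynomial.X = c := by
    funext q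
    exact MvPolynomial.aeval_X _ _
  have hc : InClosure ((fun c₀ => algebraMap K L ∘ c₀) '' X₀) c := by
    refine inClosure_of_eqs c X₀ fun c₀ hc₀ => ?_
    have hev : (MvPolynomial.eval c₀ : MvPolynomial _ K →+* K) ∘ MvPolynomial.X = c₀ := by
      funext q
      exact MvPolynomial.eval_X _
    change IsAlgC 0 c₀
    rw [← hev]
    exact isAlgC_of_ker ψ _ hc₀ (by rw [hψ]; exact isAlgC_of_isStr h1)
  refine Str.rate_limit (k := L) 0 (S := (fun c₀ => algebraMap K L ∘ c₀) '' X₀) ?_ hc h1
  rintro _ ⟨c₀, h3, rfl⟩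
  obtain ⟨A, i1, i2, v, hv⟩ := exists_algebra h3
  refine ⟨L ⊗[K] A, inferInstance, inferInstance, Algebra.TensorProduct.basis L v,
    isStr_baseChange hv, ?_⟩
  have hfin : Module.Finite K A := Module.Finite.of_basis v
  have hnt : Nontrivial A := ⟨⟨v 0, 0, v.ne_zero 0⟩⟩
  rw [rate_tensor]
  refine hK A ?_
  rw [Module.finrank_eq_card_basis v, Fintype.card_fin]

variable (K L) in
/-- **Growth rates in a given degree do not depend on the ground field.** -/
theorem all_iff [IsAlgClosed L] (d : ℕ) (x : ℝ) :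
    (∀ (A : Type) [CommRing A] [Algebra K A] [Module.Finite K A] [Nontrivial A],
      Module.finrank K A = d → rate K A ≤ x) ↔
    ∀ (B : Type) [CommRing B] [Algebra L B] [Module.Finite L B] [Nontrivial B],
      Module.finrank L B = d → rate L B ≤ x := by
  rcases Nat.eq_zero_or_pos d with rfl | hd
  · constructor
    · intro _ B _ _ _ _ hB
      have h1 : 0 < Module.finrank L B := Module.finrank_pos
      omega
    · intro _ A _ _ _ _ hA
      have h1 : 0 < Module.finrank K A := Module.finrank_pos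
      omega
  · obtain ⟨m, rfl⟩ : ∃ m, d = m + 1 := ⟨d - 1, by omega⟩
    constructor
    · intro h B _ _ _ _ hB
      exact rate_le_of_all m x h B hB
    · intro h A _ _ _ _ hA
      rw [← rate_tensor L A]
      exact h _ (by rw [Module.finrank_baseChange]; exact hA)

variable (K L) in
theorem local_iff [IsAlgClosed L] (m : ℕ) (x : ℝ) :
    (∀ (A : Type) [CommRing A] [Algebra K A] [Module.Finite K A] [IsLocalRing A],
      Module.finrank K A = m + 1 → rate K A ≤ x) ↔
    ∀ (B : Type) [CommRing B] [Algebra L B] [Module.Finite L B] [IsLocalRing B],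
      Module.finrank L B = m + 1 → rate L B ≤ x := by
  constructor
  · intro h B _ _ _ _ hB
    exact rate_le_of_local m x h B hB
  · intro h A _ _ _ _ hA
    obtain ⟨c, v, h1, h2⟩ := exists_basis A m hA
    have h3 := isStr_baseChange (L := L) h1
    have hloc : IsLocalRing (L ⊗[K] A) :=
      isLocalRing_of_nilp h3 (nilp_map (algebraMap K L) (h2 inferInstance))
    rw [← rate_tensor L A]
    exact h _ (by rw [Module.finrank_baseChange]; exact hA)

end Pool.Agent.Q180.FI
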