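import Pool.Agent.Q180.FI.Key

/-!
# Extension of the ground field
-/

set_option autoImplicit false

namespace Pool.Agent.Q180.FI

open scoped TensorProduct PowerSeries Topology
open Pool.Agent.H826R3.SM Pool.Agent.TH671.DU Pool.Agent.Q180.SC Filter

section iso

variable {k : Type} [Field k] {ι : Type} [Fintype ι] {o : ι} {c : ι × ι × ι → k}
  {A B : Type} [CommRing A] [Algebra k A] [CommRing B] [Algebra k B]
  {v : Module.Basis ι k A} {w : Module.Basis ι k B}

/-- algebras with the same structure constants are isomorphic -/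
theorem iso_of_isStr (hA : Str.IsStr o c A v) (hB : Str.IsStr o c B w) :
    Nonempty (A ≃ₐ[k] B) := by
  let E : A ≃ₗ[k] B := v.equiv w (Equiv.refl ι)
  have hE : ∀ i, E (v i) = w i := fun i => by
    change v.equiv w (Equiv.refl ι) (v i) = w i
    rw [Module.Basis.equiv_apply]
    rfl
  refine ⟨AlgEquiv.ofLinearEquiv E ?_ fun x y => ?_⟩
  · rw [← hA.1, hE, hB.1]
  · have h1 : ∀ i y, E (v i * y) = w i * E y := by
      intro i y
      have h2 : E.toLinearMap ∘ₗ LinearMap.mulLeft k (v i) =
          LinearMap.mulLeft k (w i) ∘ₗ E.toLinearMap := by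
        refine v.ext fun j => ?_
        change E (v i * v j) = w i * E (v j)
        rw [hE, hA.2, hB.2, map_sum]
        refine Finset.sum_congr rfl fun l _ => ?_
        rw [map_smul, hE]
      exact LinearMap.congr_fun h2 y
    have h3 : E.toLinearMap ∘ₗ LinearMap.mulRight k y =
        LinearMap.mulRight k (E y) ∘ₗ E.toLinearMap := by
      refine v.ext fun i => ?_
      change E (v i * y) = E (v i) * E y
      rw [h1, hE]
    exact LinearMap.congr_fun h3 x

end iso

section base

variable {K L : Type} [Field K] [Field L] [Algebra K L]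

theorem isStr_baseChange {ι : Type} [Fintype ι] {o : ι} {c : ι × ι × ι → K} {A : Type}
    [CommRing A] [Algebra K A] {v : Module.Basis ι K A} (h : Str.IsStr o c A v) :
    Str.IsStr o (algebraMap K L ∘ c) (L ⊗[K] A) (Algebra.TensorProduct.basis L v) := by
  constructor
  · rw [Algebra.TensorProduct.basis_apply, h.1]
    rfl
  · intro i j
    rw [Algebra.TensorProduct.basis_apply, Algebra.TensorProduct.basis_apply,
      Algebra.TensorProduct.tmul_mul_tmul, one_mul, h.2, TensorProduct.tmul_sum]
    refine Finset.sum_congr rfl fun l _ => ?_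
    rw [Algebra.TensorProduct.basis_apply, TensorProduct.tmul_smul, Function.comp_apply,
      algebraMap_smul]

/-- a basis which contains `1`, the other elements being in the kernel of an augmentation -/
theorem exists_basis [IsAlgClosed K] (A : Type) [CommRing A] [Algebra K A] [Module.Finite K A]
    [Nontrivial A] (m : ℕ) (hm : Module.finrank K A = m + 1) :
    ∃ (c : Fin (m + 1) × Fin (m + 1) × Fin (m + 1) → K) (v : Module.Basis (Fin (m + 1)) K A),
      Str.IsStr 0 c A v ∧ (IsLocalRing A → Nilp 0 c (m + 1)) := by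
  obtain ⟨χ⟩ := exists_aug (k := K) A
  let N : Submodule K A := LinearMap.ker χ.toLinearMap
  have hrange : LinearMap.range χ.toLinearMap = ⊤ :=
    LinearMap.range_eq_top.2 fun x => ⟨algebraMap K A x, χ.commutes x⟩
  have hN : Module.finrank K N = m := by
    have h1 := LinearMap.finrank_range_add_finrank_ker χ.toLinearMap
    rw [hrange, finrank_top, Module.finrank_self, hm] at h1
    change 1 + Module.finrank K N = m + 1 at h1
    omega
  let b : Module.Basis (Fin m) K N := Module.finBasisOfFinrankEq K N hN
  have hli : ∀ (a : K), ∀ x ∈ N, a • (1 : A) + x = 0 → a = 0 := by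
    intro a x hx h1
    have h2 := congrArg χ h1
    have h3 : χ x = 0 := hx
    rw [map_add, map_smul, map_one, h3, add_zero, map_zero, smul_eq_mul, mul_one] at h2
    exact h2
  have hsp : ∀ z : A, ∃ a : K, z + a • (1 : A) ∈ N := by
    intro z
    refine ⟨-χ z, ?_⟩
    change χ (z + -χ z • (1 : A)) = 0
    rw [map_add, map_smul, map_one, smul_eq_mul, mul_one, add_neg_cancel]
  let v : Module.Basis (Fin (m + 1)) K A := Module.Basis.mkFinCons 1 b hli hsp
  have hv0 : v 0 = 1 := by
    have h1 := congrFun (Module.Basis.coe_mkFinCons (1 : A) b hli hsp) 0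
    exact h1
  have hvs : ∀ i : Fin (m + 1), i ≠ 0 → χ (v i) = 0 := by
    intro i hi
    obtain ⟨j, rfl⟩ := Fin.exists_succ_eq.2 hi
    have h1 := congrFun (Module.Basis.coe_mkFinCons (1 : A) b hli hsp) j.succ
    have h2 : v j.succ = (b j : A) := h1
    rw [h2]
    exact (b j).2
  have hstr : Str.IsStr 0 (fun q : Fin (m + 1) × Fin (m + 1) × Fin (m + 1) =>
      v.repr (v q.1 * v q.2.1) q.2.2) A v :=
    ⟨hv0, fun i j => (v.sum_repr _).symm⟩
  refine ⟨_, v, hstr, fun hloc => nilp_of_nil hstr fun s hs => ?_⟩
  refine nil_of_local (crd0 0 v) (fun i => ?_) (m + 1) hm.le s hs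
  rw [crd0_X]
  exact aug_mem χ (hvs i i.2)

/-- **Induction** over the decomposition into local factors. -/
theorem finite_induction (P : ∀ (A : Type) [CommRing A] [Algebra K A], Prop)
    (hcongr : ∀ (A B : Type) [CommRing A] [Algebra K A] [CommRing B] [Algebra K B]
      [Module.Finite K A] [Module.Finite K B], (A ≃ₐ[K] B) → P A → P B)
    (hloc : ∀ (A : Type) [CommRing A] [Algebra K A] [Module.Finite K A] [IsLocalRing A], P A)
    (hprod : ∀ (A B : Type) [CommRing A] [Algebra K A] [CommRing B] [Algebra K B]
      [Module.Finite K A] [Module.Finite K B] [Nontrivial A] [Nontrivial B],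
        P A → P B → P (A × B)) :
    ∀ (A : Type) [CommRing A] [Algebra K A] [Module.Finite K A] [Nontrivial A], P A := by
  have key : ∀ (n : ℕ) (A : Type) [CommRing A] [Algebra K A] [Module.Finite K A] [Nontrivial A],
      Module.finrank K A = n → P A := by
    intro n
    induction n using Nat.strong_induction_on with
    | _ n ih =>
      intro A _ _ _ _ hA
      by_cases hl : IsLocalRing A
      · exact hloc A
      have hart : IsArtinianRing A := IsArtinianRing.of_finite K A
      obtain ⟨e, he, hu, hu'⟩ := exists_idem hl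
      let F : A ≃ₐ[K] (A ⧸ Ideal.span {e}) × (A ⧸ Ideal.span {1 - e}) :=
        AlgEquiv.ofBijective _ (crt_bij K e he)
      have hnt1 : Nontrivial (A ⧸ Ideal.span {e}) := by
        rw [Ideal.Quotient.nontrivial_iff, Ne, Ideal.span_singleton_eq_top]
        exact hu
      have hnt2 : Nontrivial (A ⧸ Ideal.span {1 - e}) := by
        rw [Ideal.Quotient.nontrivial_iff, Ne, Ideal.span_singleton_eq_top]
        exact hu'
      have hsum : Module.finrank K A = Module.finrank K (A ⧸ Ideal.span {e}) +
          Module.finrank K (A ⧸ Ideal.span {1 - e}) := by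
        rw [F.toLinearEquiv.finrank_eq, Module.finrank_prod]
      have hp1 : 0 < Module.finrank K (A ⧸ Ideal.span {e}) := Module.finrank_pos
      have hp2 : 0 < Module.finrank K (A ⧸ Ideal.span {1 - e}) := Module.finrank_pos
      exact hcongr _ _ F.symm (hprod _ _ (ih _ (by omega) _ rfl) (ih _ (by omega) _ rfl))
  exact fun A _ _ _ _ => key _ A rfl

variable [IsAlgClosed K] [IsAlgClosed L]

theorem rate_le_mdeg (A : Type) [CommRing A] [Algebra K A] [Module.Finite K A] [Nontrivial A] :
    rate K A ≤ mdeg K A := by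
  obtain ⟨D, hD⟩ := exists_fam (k := K) A
  have h1 := rate_pow_le (k := K) A 1
  rw [pow_one] at h1
  have h2 := mdeg_le (Str.fam_pow_one (mdeg_spec hD))
  exact h1.trans (by exact_mod_cast h2)

variable (L) in
theorem rate_local (A : Type) [CommRing A] [Algebra K A] [Module.Finite K A] [IsLocalRing A] :
    rate L (L ⊗[K] A) = rate K A := by
  obtain ⟨m, hm⟩ : ∃ m, Module.finrank K A = m + 1 := by
    have h1 : 0 < Module.finrank K A := Module.finrank_pos
    exact ⟨Module.finrank K A - 1, by omega⟩
  obtain ⟨c, v, h1, h2⟩ := exists_basis A m hm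
  exact le_antisymm (rate_ext_le (algebraMap K L) (h2 inferInstance) h1 (isStr_baseChange h1))
    (rate_ext_ge (algebraMap K L) (h2 inferInstance) h1 (isStr_baseChange h1))

variable (L) in
theorem rate_tensor_le_mdeg : ∀ (A : Type) [CommRing A] [Algebra K A] [Module.Finite K A]
    [Nontrivial A], rate L (L ⊗[K] A) ≤ mdeg K A := by
  refine finite_induction (K := K) (fun A _ _ => rate L (L ⊗[K] A) ≤ mdeg K A) ?_ ?_ ?_
  · intro A B _ _ _ _ _ _ e hA
    rw [← mdeg_congr e, ← SC.rate_congr (Algebra.TensorProduct.congr (AlgEquiv.refl : L ≃ₐ[L] L) e)]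
    exact hA
  · intro A _ _ _ _
    rw [rate_local]
    exact rate_le_mdeg A
  · intro A B _ _ _ _ _ _ _ _ hA hB
    rw [mdeg_prod', Nat.cast_add]
    have e := Algebra.TensorProduct.prodRight K L L A B
    rw [SC.rate_congr e]
    exact (rate_prod_le _ _).trans (add_le_add hA hB)

variable (L) in
theorem rate_le_mdeg_tensor : ∀ (A : Type) [CommRing A] [Algebra K A] [Module.Finite K A]
    [Nontrivial A], rate K A ≤ mdeg L (L ⊗[K] A) := by
  refine finite_induction (K := K) (fun A _ _ => rate K A ≤ mdeg L (L ⊗[K] A)) ?_ ?_ ?_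
  · intro A B _ _ _ _ _ _ e hA
    rw [← mdeg_congr (Algebra.TensorProduct.congr (AlgEquiv.refl : L ≃ₐ[L] L) e),
      ← SC.rate_congr e]
    exact hA
  · intro A _ _ _ _
    rw [← rate_local L A]
    exact rate_le_mdeg _
  · intro A B _ _ _ _ _ _ _ _ hA hB
    have e := Algebra.TensorProduct.prodRight K L L A B
    rw [mdeg_congr e, mdeg_prod', Nat.cast_add]
    exact (rate_prod_le _ _).trans (add_le_add hA hB)

omit [IsAlgClosed K] [IsAlgClosed L] in
/-- powers and extension of the ground field -/
theorem pow_tensor {m : ℕ} {c : Fin (m + 1) × Fin (m + 1) × Fin (m + 1) → K} {A : Type}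
    [CommRing A] [Algebra K A] {v : Module.Basis (Fin (m + 1)) K A} (h : Str.IsStr 0 c A v)
    (n : ℕ) : Nonempty (Pow L (L ⊗[K] A) n ≃ₐ[L] L ⊗[K] Pow K A n) := by
  have h1 := Str.isStr_pow (isStr_baseChange (L := L) h) n
  have h2 := isStr_baseChange (L := L) (Str.isStr_pow h n)
  have h3 : evalAt (Str.powConst (k := L) n) (algebraMap K L ∘ c) =
      algebraMap K L ∘ evalAt (Str.powConst n) c := by
    funext q
    simp only [evalAt, Str.powConst, Function.comp_apply, map_prod, MvPolynomial.eval_X]
  rw [h3] at h1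
  exact iso_of_isStr h1 h2

variable (L) in
/-- **The growth rate is invariant under extension of the ground field.** -/
theorem rate_tensor (A : Type) [CommRing A] [Algebra K A] [Module.Finite K A] [Nontrivial A] :
    rate L (L ⊗[K] A) = rate K A := by
  obtain ⟨m, hm⟩ : ∃ m, Module.finrank K A = m + 1 := by
    have h1 : 0 < Module.finrank K A := Module.finrank_pos
    exact ⟨Module.finrank K A - 1, by omega⟩
  obtain ⟨c, v, h1, -⟩ := exists_basis A m hm
  apply le_antisymm
  · rw [rate_eq (k := K) A]
    have hr0 : (0 : ℝ) ≤ rate L (L ⊗[K] A) := (Nat.cast_nonneg _).trans (finrank_le_rate _)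
    refine le_irate _ _ hr0 fun n => ?_
    obtain ⟨e⟩ := pow_tensor (L := L) h1 (n + 1)
    have hf := finite_Pow (k := K) (R := A) (n + 1)
    have hf2 := finite_Pow (k := L) (R := L ⊗[K] A) (n + 1)
    have hnt : Nontrivial (Pow K A (n + 1)) := by
      refine Module.nontrivial_of_finrank_pos (R := K) ?_
      rw [finrank_Pow', hm]
      positivity
    refine (Str.rate_pow_le_rate (k := L) (A := L ⊗[K] A) (n + 1)).trans ?_
    rw [SC.rate_congr e]
    exact rate_tensor_le_mdeg L (Pow K A (n + 1))
  · rw [rate_eq (k := L) (L ⊗[K] A)]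
    have hr0 : (0 : ℝ) ≤ rate K A := (Nat.cast_nonneg _).trans (finrank_le_rate _)
    refine le_irate _ _ hr0 fun n => ?_
    obtain ⟨e⟩ := pow_tensor (L := L) h1 (n + 1)
    have hf := finite_Pow (k := K) (R := A) (n + 1)
    have hnt : Nontrivial (Pow K A (n + 1)) := by
      refine Module.nontrivial_of_finrank_pos (R := K) ?_
      rw [finrank_Pow', hm]
      positivity
    refine (Str.rate_pow_le_rate (k := K) (A := A) (n + 1)).trans ?_
    rw [mdeg_congr e]
    exact rate_le_mdeg_tensor L (Pow K A (n + 1))

variable (L) in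
theorem qOne_tensor (A : Type) [CommRing A] [Algebra K A] [Module.Finite K A] [Nontrivial A] :
    QOne L (L ⊗[K] A) ↔ QOne K A := by
  rw [qOne_iff_rate, qOne_iff_rate, rate_tensor, Module.finrank_baseChange]

end base

end Pool.Agent.Q180.FI
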