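import Pool.Agent.Q180.FI.Mat

/-!
# The growth rate of a local algebra and systems of linear equations
-/

set_option autoImplicit false

namespace Pool.Agent.Q180.FI

open scoped TensorProduct PowerSeries Topology
open Pool.Agent.H826R3.SM Pool.Agent.TH671.DU Pool.Agent.Q180.SC Filter

/-- the index set of the points of the grid -/
def GI (D n M g : ℕ) (σ : Type) : Type := ((Fin D × (Fin n × σ)) → Fin (g + 1)) × (Fin M → Fin D)

instance (D n M g : ℕ) (σ : Type) [Finite σ] : Finite (GI D n M g σ) :=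
  inferInstanceAs (Finite (((Fin D × (Fin n × σ)) → Fin (g + 1)) × (Fin M → Fin D)))

noncomputable instance (D n M g : ℕ) (σ : Type) [Finite σ] : Fintype (GI D n M g σ) :=
  Fintype.ofFinite _

/-- the points of the grid with coordinates `θ` -/
def gpt {R σ : Type} {D n N M g : ℕ} (hN : N ≤ M * n) (θ : Fin (g + 1) → R) (z : GI D n M g σ) :
    Fin N × σ → R := fun x =>
  θ (z.1 (z.2 (finProdFinEquiv.symm (Fin.castLE hN x.1)).1,
    ((finProdFinEquiv.symm (Fin.castLE hN x.1)).2, x.2)))

theorem gpt_map {R S σ : Type} {D n N M g : ℕ} (hN : N ≤ M * n) (f : R → S)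
    (θ : Fin (g + 1) → R) (z : GI D n M g σ) : gpt hN (f ∘ θ) z = f ∘ gpt hN θ z := rfl

section field

variable {k : Type} [Field k]

omit [Field k] in
open Classical in
theorem gridSet_eq {σ : Type} [Fintype σ] {D n N M g : ℕ} (hN : N ≤ M * n)
    (θ : Fin (g + 1) → k) : gridSet D n N M hN (Finset.univ.image θ) =
      Finset.univ.image (gpt (D := D) (σ := σ) hN θ) := by
  ext p
  constructor
  · intro hp
    obtain ⟨z, hz, rfl⟩ := Finset.mem_image.1 hp
    have h1 := (Finset.mem_product.1 hz).1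
    have h2 : ∀ x, ∃ u, θ u = z.1 x := by
      intro x
      obtain ⟨u, -, hu⟩ := Finset.mem_image.1 (Fintype.mem_piFinset.1 h1 x)
      exact ⟨u, hu⟩
    choose u hu using h2
    refine Finset.mem_image.2 ⟨(u, z.2), Finset.mem_univ _, ?_⟩
    funext x
    exact hu _
  · intro hp
    obtain ⟨z, -, rfl⟩ := Finset.mem_image.1 hp
    refine Finset.mem_image.2 ⟨(θ ∘ z.1, z.2), Finset.mem_product.2
      ⟨Fintype.mem_piFinset.2 fun x => Finset.mem_image.2 ⟨_, Finset.mem_univ _, rfl⟩,
        Finset.mem_univ _⟩, rfl⟩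

variable {ι : Type} [Fintype ι] [DecidableEq ι] {o : ι}

/-- all monomials of degree greater than `e` vanish -/
def Nilp {R : Type} [CommRing R] (o : ι) (c : ι × ι × ι → R) (e : ℕ) : Prop :=
  ∀ s : Nx o →₀ ℕ, s.degree = e + 1 → ∀ l, mc o c s l = 0

variable {A : Type} [CommRing A] [Algebra k A] {v : Module.Basis ι k A} {c : ι × ι × ι → k}

theorem nil_of_nilp (h : Str.IsStr o c A v) {e : ℕ} (hn : Nilp o c e) (s : Nx o →₀ ℕ)
    (hs : e < s.degree) : crd0 o v (MvPolynomial.monomial s 1) = 0 := by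
  -- a divisor of degree `e + 1`
  have key : ∀ s : Nx o →₀ ℕ, e < s.degree → ∃ t u : Nx o →₀ ℕ, t.degree = e + 1 ∧ s = t + u := by
    intro s
    induction hd : s.degree using Nat.strong_induction_on generalizing s with
    | _ d ih =>
      intro hs
      rcases Nat.lt_or_ge (e + 1) d with h1 | h1
      · obtain ⟨x, hx⟩ : ∃ x, s x ≠ 0 := by
          by_contra hcon
          push Not at hcon
          have : s = 0 := Finsupp.ext hcon
          rw [this, map_zero] at hd
          omega
        have h2 : s = (s - Finsupp.single x 1) + Finsupp.single x 1 := by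
          rw [tsub_add_cancel_of_le]
          rw [Finsupp.single_le_iff]
          omega
        have h3 : (s - Finsupp.single x 1).degree + 1 = d := by
          have h4 := congrArg Finsupp.degree h2
          rw [map_add, Finsupp.degree_single] at h4
          omega
        obtain ⟨t, u, h5, h6⟩ := ih (s - Finsupp.single x 1).degree (by omega) _ rfl (by omega)
        refine ⟨t, u + Finsupp.single x 1, h5, ?_⟩
        rw [h2, h6, add_assoc]
      · exact ⟨s, 0, by omega, (add_zero s).symm⟩
  obtain ⟨t, u, h1, rfl⟩ := key s hs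
  have h2 : crd0 o v (MvPolynomial.monomial t 1) = 0 := by
    apply v.repr.injective
    rw [map_zero]
    ext l
    rw [crd0_monomial h, hn t h1, Finsupp.zero_apply]
  rw [← one_mul (1 : k), ← MvPolynomial.monomial_mul, map_mul, h2, zero_mul]

theorem nilp_of_nil (h : Str.IsStr o c A v) {e : ℕ}
    (hn : ∀ s : Nx o →₀ ℕ, e < s.degree → crd0 o v (MvPolynomial.monomial s 1) = 0) :
    Nilp o c e := by
  intro s hs l
  rw [← crd0_monomial h, hn s (by omega), map_zero, Finsupp.zero_apply]

/-- **From smoothable schemes to linear equations.** -/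
theorem covR_of_fam [IsAlgClosed k] (h : Str.IsStr o c A v) {n D : ℕ}
    (hD : Fam k (Pow k A n) D) (N M g : ℕ) (hN : N ≤ M * n) (θ : Fin (g + 1) → k)
    (hθ : Function.Injective θ) : CovR o c N g (gpt (D := D) hN θ) := by
  classical
  have hfin : Module.Finite k A := Module.Finite.of_basis v
  have hnt : Nontrivial A := by
    refine ⟨⟨v o, 0, v.ne_zero o⟩⟩
  have h1 := covers_gridSet (crd0 o v) hD N M g hN (Finset.univ.image θ) (by
    rw [Finset.card_image_of_injective _ hθ, Finset.card_univ, Fintype.card_fin]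
    omega)
  rw [gridSet_eq hN θ] at h1
  exact (covR_iff h N g (gpt (D := D) hN θ)).1 h1

theorem card_GI (D n M g : ℕ) (σ : Type) [Fintype σ] :
    Fintype.card (GI D n M g σ) = (g + 1) ^ (D * (n * Fintype.card σ)) * D ^ M := by
  classical
  rw [← Nat.card_eq_fintype_card]
  change Nat.card (((Fin D × (Fin n × σ)) → Fin (g + 1)) × (Fin M → Fin D)) = _
  rw [Nat.card_eq_fintype_card]
  simp only [Fintype.card_prod, Fintype.card_pi, Finset.prod_const, Finset.card_univ,
    Fintype.card_fin]

/-- **From linear equations to smoothable schemes.** -/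
theorem fam_of_covR [Infinite k] (h : Str.IsStr o c A v) {e : ℕ} (hn : Nilp o c e) {D n N M : ℕ}
    (hN : N ≤ M * n) (θ : Fin (e * N + 1) → k) (hC : CovR o c N (e * N) (gpt (D := D) hN θ)) :
    Fam k (Pow k A N) ((e * N + 1) * ((e * N + 1) ^ (D * (n * Fintype.card (Nx o))) * D ^ M)) := by
  classical
  have h1 := (covR_iff h N (e * N) (gpt (D := D) hN θ)).2 hC
  refine (fam_of_covers (crd0 o v) (crd0_surjective h) e (nil_of_nilp h hn) N _ h1).mono ?_
  refine Nat.mul_le_mul_left _ (Finset.card_image_le.trans ?_)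
  rw [Finset.card_univ, card_GI]

/-- **A bound for the growth rate** from linear equations. -/
theorem rate_pow_le_of_covR [IsAlgClosed k] (h : Str.IsStr o c A v) {e : ℕ} (hn : Nilp o c e)
    (n D : ℕ) (hD : 1 ≤ D) (hC : ∀ M : ℕ, ∃ θ : Fin (e * (M * n) + 1) → k,
      CovR o c (M * n) (e * (M * n)) (gpt (D := D) (le_refl (M * n)) θ)) :
    rate k A ^ n ≤ D := by
  classical
  have hinf : Infinite k := IsAlgClosed.instInfinite
  have hfin : Module.Finite k A := Module.Finite.of_basis v
  have hnt : Nontrivial A := ⟨⟨v o, 0, v.ne_zero o⟩⟩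
  have hr1 : (1 : ℝ) ≤ rate k A := by
    refine le_trans ?_ (finrank_le_rate A)
    exact_mod_cast (Module.finrank_pos (R := k) (M := A))
  have hD1 : (1 : ℝ) ≤ D := by exact_mod_cast hD
  by_contra hcon
  push Not at hcon
  obtain ⟨y, hy1, hy2⟩ := exists_between hcon
  -- the bound for all powers
  obtain ⟨C, hC0, hB⟩ := exists_bound (D * (n * Fintype.card (Nx o)) + 1) (e * n)
    (show (0 : ℝ) < D by linarith) hy1
  have hall : ∀ M : ℕ, (rate k A ^ n) ^ M ≤ C * y ^ M := by
    intro M
    obtain ⟨θ, hθ⟩ := hC M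
    have h1 := mdeg_le (fam_of_covR h hn le_rfl θ hθ)
    have h3 : mdeg k (Pow k A (M * n)) ≤
        (e * n * M + 1) ^ (D * (n * Fintype.card (Nx o)) + 1) * D ^ M := by
      have h4 : e * (M * n) = e * n * M := by ring
      rw [h4] at h1
      refine h1.trans (le_of_eq ?_)
      ring
    calc (rate k A ^ n) ^ M = rate k A ^ (M * n) := by rw [← pow_mul, mul_comm]
      _ ≤ mdeg k (Pow k A (M * n)) := rate_pow_le A (M * n)
      _ ≤ (((e * n * M + 1) ^ (D * (n * Fintype.card (Nx o)) + 1) * D ^ M : ℕ) : ℝ) := by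
          exact_mod_cast h3
      _ = ((((e * n : ℕ) : ℝ) * M + 1) ^ (D * (n * Fintype.card (Nx o)) + 1)) * (D : ℝ) ^ M := by
          push_cast
          ring
      _ ≤ C * y ^ M := hB M
  have hy0 : 0 < y := by linarith
  have hq : 1 < rate k A ^ n / y := (one_lt_div hy0).2 hy2
  obtain ⟨M, hM⟩ := pow_unbounded_of_one_lt C hq
  have h5 := hall M
  rw [div_pow, lt_div_iff₀ (by positivity)] at hM
  linarith

end field

section transfer

variable {ι : Type} [Fintype ι] [DecidableEq ι] {o : ι}

theorem covR_map {R S J : Type} [CommRing R] [CommRing S] [Fintype J] (f : R →+* S)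
    {c : ι × ι × ι → R} {N g : ℕ} {pt : J → Fin N × Nx o → R} (h : CovR o c N g pt) :
    CovR o (f ∘ c) N g fun z => f ∘ pt z := by
  intro j
  obtain ⟨a, ha⟩ := h j
  refine ⟨f ∘ a, fun s hs => ?_⟩
  rw [coefR_map, ha s hs, map_sum]
  refine Finset.sum_congr rfl fun z _ => ?_
  rw [map_mul, evm_map]
  rfl

theorem covR_descend {K L J : Type} [Field K] [Field L] [Fintype J] (f : K →+* L)
    {c : ι × ι × ι → K} {N g : ℕ} {pt : J → Fin N × Nx o → K}
    (h : CovR o (f ∘ c) N g fun z => f ∘ pt z) : CovR o c N g pt := by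
  let _ : Algebra K L := f.toAlgebra
  obtain ⟨π, hπ⟩ := (Algebra.linearMap K L).exists_leftInverse_of_injective
    (LinearMap.ker_eq_bot.2 (algebraMap K L).injective)
  have hπ' : ∀ x : K, π (f x) = x := fun x => LinearMap.congr_fun hπ x
  intro j
  obtain ⟨a, ha⟩ := h j
  refine ⟨π ∘ a, fun s hs => ?_⟩
  have h1 := congrArg π (ha s hs)
  rw [coefR_map, hπ', map_sum] at h1
  rw [h1]
  refine Finset.sum_congr rfl fun z _ => ?_
  rw [evm_map]
  have h2 : a z * f (evm (pt z) s) = evm (pt z) s • a z := by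
    rw [Algebra.smul_def, mul_comm]
    rfl
  rw [h2, map_smul, smul_eq_mul, mul_comm]
  rfl

theorem nilp_map {R S : Type} [CommRing R] [CommRing S] (f : R →+* S) {c : ι × ι × ι → R} {e : ℕ}
    (h : Nilp o c e) : Nilp o (f ∘ c) e := by
  intro s hs l
  rw [mc_map, h s hs, map_zero]

end transfer

section extension

variable {ι : Type} [Fintype ι] [DecidableEq ι] {o : ι}

/-- **The growth rate of a local algebra does not depend on the ground field.** -/
theorem rate_ext_le {K L : Type} [Field K] [IsAlgClosed K] [Field L] [IsAlgClosed L]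
    (f : K →+* L) {c : ι × ι × ι → K} {e : ℕ} (hn : Nilp o c e)
    {A : Type} [CommRing A] [Algebra K A] {v : Module.Basis ι K A} (hA : Str.IsStr o c A v)
    {B : Type} [CommRing B] [Algebra L B] {w : Module.Basis ι L B}
    (hB : Str.IsStr o (f ∘ c) B w) : rate L B ≤ rate K A := by
  have hfin : Module.Finite K A := Module.Finite.of_basis v
  have hfin' : Module.Finite L B := Module.Finite.of_basis w
  have hinf : Infinite K := IsAlgClosed.instInfinite
  have hnt' : Nontrivial B := ⟨⟨w o, 0, w.ne_zero o⟩⟩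
  have hnt : Nontrivial A := ⟨⟨v o, 0, v.ne_zero o⟩⟩
  have hr0 : (0 : ℝ) ≤ rate L B := (Nat.cast_nonneg _).trans (finrank_le_rate B)
  rw [rate_eq (k := K) A]
  refine le_irate _ _ hr0 fun m => ?_
  have hfp := finite_Pow (k := K) (R := A) (m + 1)
  obtain ⟨D', hD'⟩ := exists_fam (k := K) (Pow K A (m + 1))
  have hD := mdeg_spec hD'
  have hpos : 1 ≤ mdeg K (Pow K A (m + 1)) := by
    have h1 := rate_pow_le (k := K) A (m + 1)
    have h2 : (1 : ℝ) ≤ rate K A := by
      refine le_trans ?_ (finrank_le_rate A)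
      exact_mod_cast (Module.finrank_pos (R := K) (M := A))
    have h3 : (1 : ℝ) ≤ mdeg K (Pow K A (m + 1)) := (one_le_pow₀ h2).trans h1
    exact_mod_cast h3
  refine rate_pow_le_of_covR hB (nilp_map f hn) (m + 1) _ hpos fun M => ?_
  obtain ⟨θ⟩ : Nonempty (Fin (e * (M * (m + 1)) + 1) ↪ K) :=
    ⟨(Fin.valEmbedding).trans (Infinite.natEmbedding K)⟩
  refine ⟨f ∘ θ, ?_⟩
  exact covR_map f (covR_of_fam hA hD (M * (m + 1)) M _ le_rfl θ θ.injective)

theorem rate_ext_ge {K L : Type} [Field K] [IsAlgClosed K] [Field L] [IsAlgClosed L]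
    (f : K →+* L) {c : ι × ι × ι → K} {e : ℕ} (hn : Nilp o c e)
    {A : Type} [CommRing A] [Algebra K A] {v : Module.Basis ι K A} (hA : Str.IsStr o c A v)
    {B : Type} [CommRing B] [Algebra L B] {w : Module.Basis ι L B}
    (hB : Str.IsStr o (f ∘ c) B w) : rate K A ≤ rate L B := by
  have hfin : Module.Finite K A := Module.Finite.of_basis v
  have hfin' : Module.Finite L B := Module.Finite.of_basis w
  have hinf : Infinite K := IsAlgClosed.instInfinite
  have hnt' : Nontrivial B := ⟨⟨w o, 0, w.ne_zero o⟩⟩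
  have hnt : Nontrivial A := ⟨⟨v o, 0, v.ne_zero o⟩⟩
  have hr0 : (0 : ℝ) ≤ rate K A := (Nat.cast_nonneg _).trans (finrank_le_rate A)
  rw [rate_eq (k := L) B]
  refine le_irate _ _ hr0 fun m => ?_
  have hfp := finite_Pow (k := L) (R := B) (m + 1)
  obtain ⟨D', hD'⟩ := exists_fam (k := L) (Pow L B (m + 1))
  have hD := mdeg_spec hD'
  have hpos : 1 ≤ mdeg L (Pow L B (m + 1)) := by
    have h1 := rate_pow_le (k := L) B (m + 1)
    have h2 : (1 : ℝ) ≤ rate L B := by
      refine le_trans ?_ (finrank_le_rate B)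
      exact_mod_cast (Module.finrank_pos (R := L) (M := B))
    have h3 : (1 : ℝ) ≤ mdeg L (Pow L B (m + 1)) := (one_le_pow₀ h2).trans h1
    exact_mod_cast h3
  refine rate_pow_le_of_covR hA hn (m + 1) _ hpos fun M => ?_
  obtain ⟨θ⟩ : Nonempty (Fin (e * (M * (m + 1)) + 1) ↪ K) :=
    ⟨(Fin.valEmbedding).trans (Infinite.natEmbedding K)⟩
  refine ⟨θ, covR_descend f ?_⟩
  exact covR_of_fam hB hD (M * (m + 1)) M _ le_rfl (f ∘ θ) (f.injective.comp θ.injective)

end extension

end Pool.Agent.Q180.FI
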