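import Pool.Agent.Q180.SC.Uni

/-!
# Covering sets of points as systems of linear equations
-/

set_option autoImplicit false

namespace Pool.Agent.Q180.FI

open scoped TensorProduct PowerSeries Topology
open Pool.Agent.H826R3.SM Pool.Agent.TH671.DU Pool.Agent.Q180.SC Filter

/-- the coordinates of the product of the basis elements with the indices in a list, for the
structure constants `c`; the basis element number `o` is `1` -/
def mon {R ι : Type} [CommRing R] [Fintype ι] [DecidableEq ι] (o : ι) (c : ι × ι × ι → R) :
    List ι → ι → R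
  | [], l => if l = o then 1 else 0
  | i :: L, l => ∑ j, mon o c L j * c (i, j, l)

/-- the indices of the nilpotent basis elements -/
abbrev Nx {ι : Type} (o : ι) : Type := {i : ι // i ≠ o}

/-- the coordinates of a monomial -/
noncomputable def mc {R ι : Type} [CommRing R] [Fintype ι] [DecidableEq ι] (o : ι)
    (c : ι × ι × ι → R) (s : Nx o →₀ ℕ) (l : ι) : R :=
  mon o c ((Finsupp.toMultiset s).toList.map Subtype.val) l

/-- the coordinates of a monomial on the `N`-th power -/
noncomputable def coefR {R ι : Type} [CommRing R] [Fintype ι] [DecidableEq ι] (o : ι)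
    (c : ι × ι × ι → R) (N : ℕ) (s : Fin N × Nx o →₀ ℕ) (j : Fin N → ι) : R :=
  ∏ m, mc o c (part s m) (j m)

/-- the linear form of a monomial, evaluated at a point -/
def evm {R X : Type} [CommRing R] [Fintype X] (p : X → R) (s : X →₀ ℕ) : R := ∏ x, p x ^ s x

/-- The coordinates of the monomials of degree at most `h` on the `N`-th power are linear
combinations of the values at the points `pt z`. -/
def CovR {R J ι : Type} [CommRing R] [Fintype ι] [DecidableEq ι] [Fintype J] (o : ι)
    (c : ι × ι × ι → R) (N h : ℕ) (pt : J → Fin N × Nx o → R) : Prop :=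
  ∀ j : Fin N → ι, ∃ a : J → R, ∀ s : Fin N × Nx o →₀ ℕ, s.degree ≤ h →
    coefR o c N s j = ∑ z, a z * evm (pt z) s

section maps

variable {R S ι : Type} [CommRing R] [CommRing S] [Fintype ι] [DecidableEq ι] (f : R →+* S) (o : ι)
  (c : ι × ι × ι → R)

theorem mon_map (L : List ι) (l : ι) : mon o (f ∘ c) L l = f (mon o c L l) := by
  induction L generalizing l with
  | nil =>
    rw [mon, mon]
    split_ifs <;> simp
  | cons i L ih =>
    rw [mon, mon, map_sum]
    refine Finset.sum_congr rfl fun j _ => ?_
    rw [map_mul, ih]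
    rfl

theorem mc_map (s : Nx o →₀ ℕ) (l : ι) : mc o (f ∘ c) s l = f (mc o c s l) := mon_map f o c _ l

theorem coefR_map (N : ℕ) (s : Fin N × Nx o →₀ ℕ) (j : Fin N → ι) :
    coefR o (f ∘ c) N s j = f (coefR o c N s j) := by
  rw [coefR, coefR, map_prod]
  exact Finset.prod_congr rfl fun m _ => mc_map f o c _ _

theorem evm_map {X : Type} [Fintype X] (p : X → R) (s : X →₀ ℕ) :
    evm (f ∘ p) s = f (evm p s) := by
  rw [evm, evm, map_prod]
  refine Finset.prod_congr rfl fun x _ => ?_
  rw [map_pow]
  rfl

end maps

section field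

variable {k : Type} [Field k] {ι : Type} [Fintype ι] [DecidableEq ι] {o : ι}

/-- the coordinate functions `v i`, `i ≠ o` -/
noncomputable def crd0 {A : Type} [CommRing A] [Algebra k A] (o : ι) (v : Module.Basis ι k A) :
    MvPolynomial (Nx o) k →ₐ[k] A :=
  MvPolynomial.aeval fun i : Nx o => v i

variable {A : Type} [CommRing A] [Algebra k A] {v : Module.Basis ι k A}

theorem prod_eq {c : ι × ι × ι → k} (h : Str.IsStr o c A v) (L : List ι) :
    (L.map v).prod = ∑ l, mon o c L l • v l := by
  induction L with
  | nil =>
    rw [List.map_nil, List.prod_nil, Finset.sum_eq_single o]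
    · rw [mon, if_pos rfl, one_smul, h.1]
    · intro l _ hl
      rw [mon, if_neg hl, zero_smul]
    · intro hc
      exact absurd (Finset.mem_univ _) hc
  | cons i L ih =>
    rw [List.map_cons, List.prod_cons, ih, Finset.mul_sum]
    simp only [mon, Finset.sum_smul]
    rw [Finset.sum_comm]
    refine Finset.sum_congr rfl fun j _ => ?_
    rw [mul_smul_comm, h.2, Finset.smul_sum]
    refine Finset.sum_congr rfl fun l _ => ?_
    rw [smul_smul]

theorem crd0_monomial {c : ι × ι × ι → k} (h : Str.IsStr o c A v) (s : Nx o →₀ ℕ) (l : ι) :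
    v.repr (crd0 o v (MvPolynomial.monomial s 1)) l = mc o c s l := by
  have h1 : crd0 o v (MvPolynomial.monomial s 1) =
      (((Finsupp.toMultiset s).toList.map Subtype.val).map v).prod := by
    unfold crd0
    rw [List.map_map, MvPolynomial.aeval_monomial, map_one, one_mul, ← Multiset.prod_coe,
      ← Multiset.map_coe, Multiset.coe_toList, Finsupp.toMultiset_map, Finsupp.prod_toMultiset,
      Finsupp.prod_mapDomain_index]
    · rfl
    · intro b
      rw [pow_zero]
    · intro b m₁ m₂
      rw [pow_add]
  rw [h1, prod_eq h, map_sum, Finset.sum_apply']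
  rw [Finset.sum_eq_single l]
  · rw [map_smul, Finsupp.smul_apply, Module.Basis.repr_self, Finsupp.single_eq_same, smul_eq_mul,
      mul_one]
    rfl
  · intro j _ hj
    rw [map_smul, Finsupp.smul_apply, Module.Basis.repr_self, Finsupp.single_eq_of_ne hj.symm,
      smul_zero]
  · intro hc
    exact absurd (Finset.mem_univ _) hc

omit [Fintype ι] [DecidableEq ι] in
theorem crd0_X (i : Nx o) : crd0 o v (MvPolynomial.X i) = v i := MvPolynomial.aeval_X _ _

theorem crd0_surjective {c : ι × ι × ι → k} (h : Str.IsStr o c A v) :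
    Function.Surjective (crd0 o v) := by
  intro y
  refine ⟨∑ i, if hi : i = o then MvPolynomial.C (v.repr y i) else
    MvPolynomial.C (v.repr y i) * MvPolynomial.X ⟨i, hi⟩, ?_⟩
  conv_rhs => rw [← v.sum_repr y]
  rw [map_sum]
  refine Finset.sum_congr rfl fun i _ => ?_
  have h2 : ∀ c : k, crd0 o v (MvPolynomial.C c) = algebraMap k A c := fun c =>
    (crd0 o v).commutes c
  split_ifs with hi
  · rw [h2, hi, h.1, Algebra.smul_def, mul_one]
  · rw [map_mul, h2, crd0_X, Algebra.smul_def]

theorem repr_phiPow {c : ι × ι × ι → k} (h : Str.IsStr o c A v) (N : ℕ)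
    (F : MvPolynomial (Fin N × Nx o) k) (j : Fin N → ι) :
    (Basis.piTensorProduct fun _ : Fin N => v).repr (phiPow (crd0 o v) N F) j =
      ∑ s ∈ F.support, F.coeff s * coefR o c N s j := by
  conv_lhs => rw [F.as_sum, map_sum, map_sum, Finset.sum_apply']
  refine Finset.sum_congr rfl fun s _ => ?_
  have h7 : MvPolynomial.monomial s (F.coeff s) = F.coeff s • MvPolynomial.monomial s (1 : k) := by
    rw [MvPolynomial.smul_monomial, smul_eq_mul, mul_one]
  rw [h7, map_smul, map_smul, Finsupp.smul_apply, smul_eq_mul, phiPow_monomial,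
    Basis.piTensorProduct_repr_tprod_apply, coefR]
  congr 1
  exact Finset.prod_congr rfl fun l _ => crd0_monomial h _ _

theorem eval_eq_evm {X : Type} [Fintype X] (p : X → k) (F : MvPolynomial X k) :
    MvPolynomial.eval p F = ∑ s ∈ F.support, F.coeff s * evm p s := by
  rw [MvPolynomial.eval_eq']
  rfl

open Classical in
theorem covR_iff {c : ι × ι × ι → k} (h : Str.IsStr o c A v) {J : Type} [Fintype J] (N g : ℕ)
    (pt : J → Fin N × Nx o → k) :
    Covers (crd0 o v) N g (Finset.univ.image pt) ↔ CovR o c N g pt := by
  constructor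
  · intro hC j
    let T : Type := {s : Fin N × Nx o →₀ ℕ // s.degree ≤ g}
    have hfin : Finite T := by
      have h1 : {s : Fin N × Nx o →₀ ℕ | s.degree ≤ g}.Finite := by
        refine (Set.Finite.subset (s := {s : Fin N × Nx o →₀ ℕ | ∀ x, s x ≤ g}) ?_ ?_)
        · have h2 := (Set.Finite.pi' fun _ : Fin N × Nx o => Set.finite_Iic g)
          refine (h2.preimage (f := fun s : Fin N × Nx o →₀ ℕ => (s : Fin N × Nx o → ℕ))
            (DFunLike.coe_injective.injOn)).subset ?_
          intro s hs
          exact hs
        · intro s hs x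
          exact (Finsupp.le_degree x s).trans hs
      exact h1.to_subtype
    have := Fintype.ofFinite T
    let K : Module.Dual k (T → k) := ∑ s : T, coefR o c N s.1 j • LinearMap.proj s
    let L : J → Module.Dual k (T → k) := fun z => ∑ s : T, evm (pt z) s.1 • LinearMap.proj s
    have hK : ∀ g', K g' = ∑ s : T, g' s * coefR o c N s.1 j := by
      intro g'
      simp only [K, LinearMap.sum_apply, LinearMap.smul_apply, LinearMap.proj_apply, smul_eq_mul]
      exact Finset.sum_congr rfl fun s _ => mul_comm _ _
    have hL : ∀ z g', L z g' = ∑ s : T, g' s * evm (pt z) s.1 := by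
      intro z g'
      simp only [L, LinearMap.sum_apply, LinearMap.smul_apply, LinearMap.proj_apply, smul_eq_mul]
      exact Finset.sum_congr rfl fun s _ => mul_comm _ _
    have hker : ⨅ z, LinearMap.ker (L z) ≤ LinearMap.ker K := by
      intro g' hg'
      rw [Submodule.mem_iInf] at hg'
      let F : MvPolynomial (Fin N × Nx o) k := ∑ s : T, MvPolynomial.monomial s.1 (g' s)
      have hcoe : ∀ s : T, F.coeff s.1 = g' s := by
        intro s
        rw [MvPolynomial.coeff_sum, Finset.sum_eq_single s]
        · rw [MvPolynomial.coeff_monomial, if_pos rfl]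
        · intro t _ ht
          rw [MvPolynomial.coeff_monomial, if_neg fun hc => ht (Subtype.ext hc)]
        · intro hc
          exact absurd (Finset.mem_univ _) hc
      have hsup : F.support ⊆ Finset.univ.image (Subtype.val : T → _) := by
        intro s hs
        by_contra hc
        rw [MvPolynomial.mem_support_iff] at hs
        apply hs
        rw [MvPolynomial.coeff_sum]
        refine Finset.sum_eq_zero fun t _ => ?_
        rw [MvPolynomial.coeff_monomial, if_neg]
        intro hts
        exact hc (Finset.mem_image.2 ⟨t, Finset.mem_univ _, hts⟩)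
      have hsum : ∀ w : (Fin N × Nx o →₀ ℕ) → k, ∑ s ∈ F.support, F.coeff s * w s =
          ∑ s : T, g' s * w s.1 := by
        intro w
        rw [Finset.sum_subset hsup, Finset.sum_image Subtype.val_injective.injOn]
        · exact Finset.sum_congr rfl fun s _ => by rw [hcoe]
        · intro s _ hs
          rw [MvPolynomial.notMem_support_iff.1 hs, zero_mul]
      have hdeg : F.totalDegree ≤ g := by
        rw [MvPolynomial.totalDegree]
        refine Finset.sup_le fun s hs => ?_
        obtain ⟨t, -, rfl⟩ := Finset.mem_image.1 (hsup hs)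
        exact t.2
      have h0 : phiPow (crd0 o v) N F = 0 := by
        refine hC F hdeg fun p hp => ?_
        obtain ⟨z, -, rfl⟩ := Finset.mem_image.1 hp
        rw [eval_eq_evm, hsum, ← hL]
        exact hg' z
      rw [LinearMap.mem_ker, hK, ← hsum fun s => coefR o c N s j, ← repr_phiPow h, h0, map_zero,
        Finsupp.zero_apply]
    have hmem := mem_span_of_iInf_ker_le_ker hker
    obtain ⟨a, ha⟩ := (Submodule.mem_span_range_iff_exists_fun k).1 hmem
    refine ⟨a, fun s hs => ?_⟩
    have h3 := LinearMap.congr_fun ha (Pi.single (⟨s, hs⟩ : T) 1)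
    have h4 : ∀ w : T → k, ∑ t : T, (Pi.single (⟨s, hs⟩ : T) (1 : k) : T → k) t * w t =
        w ⟨s, hs⟩ := by
      intro w
      rw [Finset.sum_eq_single (⟨s, hs⟩ : T)]
      · rw [Pi.single_eq_same, one_mul]
      · intro t _ ht
        rw [Pi.single_eq_of_ne ht, zero_mul]
      · intro hc
        exact absurd (Finset.mem_univ _) hc
    rw [hK, h4, LinearMap.sum_apply] at h3
    rw [← h3]
    refine Finset.sum_congr rfl fun z _ => ?_
    rw [LinearMap.smul_apply, hL, h4, smul_eq_mul]
  · intro hC F hdeg hF
    apply (Basis.piTensorProduct fun _ : Fin N => v).repr.injective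
    rw [map_zero]
    ext j
    obtain ⟨a, ha⟩ := hC j
    rw [repr_phiPow h, Finsupp.zero_apply]
    have h1 : ∀ s ∈ F.support, F.coeff s * coefR o c N s j =
        ∑ z, a z * (F.coeff s * evm (pt z) s) := by
      intro s hs
      rw [ha s ((MvPolynomial.le_totalDegree hs).trans hdeg), Finset.mul_sum]
      exact Finset.sum_congr rfl fun z _ => by ring
    rw [Finset.sum_congr rfl h1, Finset.sum_comm]
    refine Finset.sum_eq_zero fun z _ => ?_
    rw [← Finset.mul_sum, ← eval_eq_evm, hF _ (Finset.mem_image.2 ⟨z, Finset.mem_univ _, rfl⟩),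
      mul_zero]

end field

end Pool.Agent.Q180.FI
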