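import Pool.Agent.Q180.FI.Ultra

/-!
# Transfer between characteristic zero and large characteristic
-/

set_option autoImplicit false

namespace Pool.Agent.Q180.FI

open scoped TensorProduct PowerSeries Topology
open Pool.Agent.H826R3.SM Pool.Agent.TH671.DU Pool.Agent.Q180.SC Filter

theorem finite_degree {X : Type} [Finite X] (g : ℕ) : {s : X →₀ ℕ | s.degree ≤ g}.Finite := by
  refine (Set.Finite.subset (s := {s : X →₀ ℕ | ∀ x, s x ≤ g}) ?_ ?_)
  · have h2 := (Set.Finite.pi' fun _ : X => Set.finite_Iic g)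
    refine (h2.preimage (f := fun s : X →₀ ℕ => (s : X → ℕ))
      (DFunLike.coe_injective.injOn)).subset ?_
    intro s hs
    exact hs
  · intro s hs x
    exact (Finsupp.le_degree x s).trans hs

section los

variable {F : ℕ → Type} [∀ i, Field (F i)] {U : Ultrafilter ℕ} {ι : Type} [Fintype ι]
  [DecidableEq ι] {o : ι}

/-- the component number `i` of a family of elements of the product -/
abbrev ev (i : ℕ) : (∀ i, F i) →+* F i := Pi.evalRingHom F i

theorem um_eq_iff (x y : ∀ i, F i) : um F U x = um F U y ↔ ∀ᶠ i in (U : Filter ℕ), x i = y i := by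
  rw [← sub_eq_zero, ← map_sub, um_eq_zero]
  simp only [Pi.sub_apply, sub_eq_zero]

theorem nilp_iff {c : ι × ι × ι → ∀ i, F i} {e : ℕ} :
    Nilp o (um F U ∘ c) e ↔ ∀ᶠ i in (U : Filter ℕ), Nilp o (ev i ∘ c) e := by
  have hfin : {s : Nx o →₀ ℕ | s.degree = e + 1}.Finite :=
    (finite_degree (e + 1)).subset fun s hs => le_of_eq hs
  unfold Nilp
  simp only [mc_map]
  have h1 : (∀ᶠ i in (U : Filter ℕ), ∀ s : Nx o →₀ ℕ, s.degree = e + 1 → ∀ l,
      ev i (mc o c s l) = 0) ↔ ∀ s ∈ {s : Nx o →₀ ℕ | s.degree = e + 1},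
        ∀ᶠ i in (U : Filter ℕ), ∀ l, ev i (mc o c s l) = 0 :=
    (eventually_all_finite hfin)
  rw [h1]
  refine forall_congr' fun s => forall_congr' fun hs => ?_
  rw [eventually_all]
  exact forall_congr' fun l => um_eq_zero F U _

theorem isAlgC_iff {c : ι × ι × ι → ∀ i, F i} :
    IsAlgC o (um F U ∘ c) ↔ ∀ᶠ i in (U : Filter ℕ), IsAlgC o (ev i ∘ c) := by
  unfold IsAlgC
  rw [eventually_and, eventually_and]
  refine and_congr ?_ (and_congr ?_ ?_)
  · rw [eventually_all]
    refine forall_congr' fun j => ?_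
    rw [eventually_all]
    refine forall_congr' fun l => ?_
    have h1 : (if j = l then (1 : UP F U) else 0) = um F U (if j = l then 1 else 0) := by
      split_ifs <;> simp
    rw [h1, Function.comp_apply, um_eq_iff]
    refine eventually_congr (Eventually.of_forall fun i => ?_)
    have h2 : (if j = l then (1 : ∀ i, F i) else 0) i = if j = l then (1 : F i) else 0 := by
      split_ifs <;> rfl
    rw [h2]
    rfl
  · rw [eventually_all]
    refine forall_congr' fun i => ?_
    rw [eventually_all]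
    refine forall_congr' fun j => ?_
    rw [eventually_all]
    refine forall_congr' fun l => ?_
    exact um_eq_iff _ _
  · rw [eventually_all]
    refine forall_congr' fun i => ?_
    rw [eventually_all]
    refine forall_congr' fun j => ?_
    rw [eventually_all]
    refine forall_congr' fun p => ?_
    rw [eventually_all]
    refine forall_congr' fun n => ?_
    have h1 : ∑ l, (um F U ∘ c) (i, j, l) * (um F U ∘ c) (l, p, n) =
        um F U (∑ l, c (i, j, l) * c (l, p, n)) := by
      rw [map_sum]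
      exact Finset.sum_congr rfl fun l _ => (map_mul _ _ _).symm
    have h2 : ∑ l, (um F U ∘ c) (j, p, l) * (um F U ∘ c) (i, l, n) =
        um F U (∑ l, c (j, p, l) * c (i, l, n)) := by
      rw [map_sum]
      exact Finset.sum_congr rfl fun l _ => (map_mul _ _ _).symm
    rw [h1, h2, um_eq_iff]
    refine eventually_congr (Eventually.of_forall fun q => ?_)
    rw [Finset.sum_apply, Finset.sum_apply]
    rfl

theorem covR_up {J : Type} [Fintype J] {c : ι × ι × ι → ∀ i, F i} {N g : ℕ}
    {pt : J → Fin N × Nx o → ∀ i, F i} (h : CovR o (um F U ∘ c) N g fun z => um F U ∘ pt z) :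
    ∀ᶠ i in (U : Filter ℕ), CovR o (ev i ∘ c) N g fun z => ev i ∘ pt z := by
  unfold CovR
  rw [eventually_all]
  intro j
  obtain ⟨a, ha⟩ := h j
  choose b hb using fun z => um_surj F U (a z)
  have h1 : ∀ s ∈ {s : Fin N × Nx o →₀ ℕ | s.degree ≤ g}, ∀ᶠ i in (U : Filter ℕ),
      coefR o (ev i ∘ c) N s j = ∑ z, b z i * evm (ev i ∘ pt z) s := by
    intro s hs
    have h2 := ha s hs
    rw [coefR_map] at h2
    have h3 : ∑ z, a z * evm (um F U ∘ pt z) s = um F U (∑ z, b z * evm (pt z) s) := by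
      rw [map_sum]
      refine Finset.sum_congr rfl fun z _ => ?_
      rw [map_mul, hb, evm_map]
    rw [h3, um_eq_iff] at h2
    filter_upwards [h2] with i hi
    rw [coefR_map]
    change coefR o c N s j i = _
    rw [hi, Finset.sum_apply]
    refine Finset.sum_congr rfl fun z _ => ?_
    rw [evm_map]
    rfl
  filter_upwards [(eventually_all_finite (finite_degree g)).2 h1] with i hi
  exact ⟨fun z => b z i, hi⟩

theorem covR_down {J : Type} [Fintype J] {c : ι × ι × ι → ∀ i, F i} {N g : ℕ}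
    {pt : J → Fin N × Nx o → ∀ i, F i}
    (h : ∀ᶠ i in (U : Filter ℕ), CovR o (ev i ∘ c) N g fun z => ev i ∘ pt z) :
    CovR o (um F U ∘ c) N g fun z => um F U ∘ pt z := by
  classical
  intro j
  have h1 : ∀ i, ∃ a : J → F i, (CovR o (ev i ∘ c) N g fun z => ev i ∘ pt z) →
      ∀ s : Fin N × Nx o →₀ ℕ, s.degree ≤ g →
        coefR o (ev i ∘ c) N s j = ∑ z, a z * evm (ev i ∘ pt z) s := by
    intro i
    by_cases hi : CovR o (ev i ∘ c) N g fun z => ev i ∘ pt z
    · obtain ⟨a, ha⟩ := hi j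
      exact ⟨a, fun _ => ha⟩
    · exact ⟨0, fun h => absurd h hi⟩
  choose a ha using h1
  let b : J → ∀ i, F i := fun z i => a i z
  refine ⟨fun z => um F U (b z), fun s hs => ?_⟩
  rw [coefR_map]
  have h3 : ∑ z, um F U (b z) * evm (um F U ∘ pt z) s = um F U (∑ z, b z * evm (pt z) s) := by
    rw [map_sum]
    refine Finset.sum_congr rfl fun z _ => ?_
    rw [map_mul, evm_map]
  rw [h3, um_eq_iff]
  filter_upwards [h] with i hi
  have h4 := ha i hi s hs
  rw [coefR_map] at h4
  change coefR o c N s j i = _ at h4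
  rw [h4, Finset.sum_apply]
  refine Finset.sum_congr rfl fun z _ => ?_
  rw [evm_map]
  rfl

end los

/-- Every local algebra of degree `m + 1` over `k` has a power `n ≤ N` which is contained in a
smoothable scheme of degree at most `x ^ n`. -/
def Bnd (k : Type) [Field k] (m : ℕ) (x : ℝ) (N : ℕ) : Prop :=
  ∀ (A : Type) [CommRing A] [Algebra k A] [Module.Finite k A] [IsLocalRing A],
    Module.finrank k A = m + 1 → ∃ n, 1 ≤ n ∧ n ≤ N ∧ (mdeg k (Pow k A n) : ℝ) ≤ x ^ n

/-- **The core of the transfer**: a power of an ultraproduct of local algebras bounds the same power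
of almost all factors. -/
theorem core {k : ℕ → Type} [∀ i, Field (k i)] [∀ i, IsAlgClosed (k i)] {U : Ultrafilter ℕ}
    {m : ℕ} {e : ℕ} {ct : Fin (m + 1) × Fin (m + 1) × Fin (m + 1) → ∀ i, k i}
    {B : Type} [CommRing B] [Algebra (UP k U) B] {w : Module.Basis (Fin (m + 1)) (UP k U) B}
    (hw : Str.IsStr 0 (um k U ∘ ct) B w) (hnil : Nilp 0 (um k U ∘ ct) e)
    {y : ℝ} (hy : rate (UP k U) B < y) :
    ∃ n, 1 ≤ n ∧ ∀ᶠ i in (U : Filter ℕ), ∀ (A : Type) [CommRing A] [Algebra (k i) A]
      (v : Module.Basis (Fin (m + 1)) (k i) A), Str.IsStr 0 (ev i ∘ ct) A v →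
        (mdeg (k i) (Pow (k i) A n) : ℝ) ≤ y ^ n := by
  classical
  let K := UP k U
  have hinf : ∀ i, Infinite (k i) := fun i => IsAlgClosed.instInfinite
  have hfin : Module.Finite K B := Module.Finite.of_basis w
  have hnt : Nontrivial B := ⟨⟨w 0, 0, w.ne_zero 0⟩⟩
  have hr1 : (1 : ℝ) ≤ rate K B := by
    refine le_trans ?_ (finrank_le_rate B)
    exact_mod_cast (Module.finrank_pos (R := K) (M := B))
  obtain ⟨y₁, hy1, hy'⟩ := exists_between hy
  obtain ⟨y₂, hy2, hy3⟩ := exists_between hy'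
  -- a power
  obtain ⟨C₀, hC₀, hG⟩ := rate_growth (k := K) B ((y₁ - rate K B) / 2) (by linarith)
  obtain ⟨n, hn, hn2⟩ := exists_exp 0 C₀ 0 le_rfl
    (show (0 : ℝ) < rate K B + (y₁ - rate K B) / 2 by linarith)
    (show rate K B + (y₁ - rate K B) / 2 < y₁ by linarith)
  rw [zero_mul, zero_add] at hn2
  set D := mdeg K (Pow K B n) with hD
  have hDn : (D : ℝ) ≤ y₁ ^ n := (hG n).trans hn2
  have hfam : Fam K (Pow K B n) D := by
    have := finite_Pow (k := K) (R := B) n
    obtain ⟨D', hD'⟩ := exists_fam (k := K) (Pow K B n)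
    exact mdeg_spec hD'
  set E := D * (n * Fintype.card (Nx (0 : Fin (m + 1)))) + 1 with hE
  have hpw : ∀ {a b : ℝ}, 0 < a → a < b → a ^ n < b ^ n := fun ha hab =>
    pow_lt_pow_left₀ hab ha.le (by omega)
  obtain ⟨C₁, hC₁, hB⟩ := exists_bound E (e * n)
    (show (0 : ℝ) < y₁ ^ n from pow_pos (by linarith) n)
    (hpw (show (0 : ℝ) < y₁ by linarith) hy2)
  obtain ⟨M, hM, hM2⟩ := exists_exp 0 C₁ 0 le_rfl (show (0 : ℝ) < y₂ ^ n from
    pow_pos (by linarith) n) (hpw (show (0 : ℝ) < y₂ by linarith) hy3)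
  rw [zero_mul, zero_add] at hM2
  -- the points of the grid
  set g := e * (M * n) with hg
  let θ : Fin (g + 1) → ∀ i, k i := fun u i => Infinite.natEmbedding (k i) u
  have hθ : Function.Injective (um k U ∘ θ) := by
    intro u u' huu
    have h7 := (um_eq_iff (F := k) (U := U) _ _).1 huu
    obtain ⟨i, hi⟩ := h7.exists
    exact Fin.ext ((Infinite.natEmbedding (k i)).injective hi)
  have hcov := covR_of_fam hw hfam (M * n) M g le_rfl (um k U ∘ θ) hθ
  have hcov2 := covR_up (F := k) (U := U) (c := ct)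
    (pt := fun z => gpt (D := D) (le_refl (M * n)) θ z) hcov
  have hnil2 := nilp_iff.1 hnil
  refine ⟨M * n, Nat.mul_pos hM hn, ?_⟩
  filter_upwards [hcov2, hnil2] with i hi1 hi2
  intro A _ _ v hv
  have hfi := fam_of_covR hv hi2 (D := D) (le_refl (M * n)) (fun u => θ u i) hi1
  have h7 := mdeg_le hfi
  calc (mdeg (k i) (Pow (k i) A (M * n)) : ℝ) ≤
        ((g + 1) * ((g + 1) ^ (D * (n * Fintype.card (Nx (0 : Fin (m + 1))))) * D ^ M) : ℕ) := by
        exact_mod_cast h7
    _ = (((e * n : ℕ) : ℝ) * M + 1) ^ E * (D : ℝ) ^ M := by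
        rw [hE, hg]
        push_cast
        ring
    _ ≤ (((e * n : ℕ) : ℝ) * M + 1) ^ E * (y₁ ^ n) ^ M :=
        mul_le_mul_of_nonneg_left (pow_le_pow_left₀ (Nat.cast_nonneg _) hDn _) (by positivity)
    _ ≤ C₁ * (y₂ ^ n) ^ M := hB M
    _ ≤ (y ^ n) ^ M := hM2
    _ = y ^ (M * n) := by rw [← pow_mul, mul_comm]

/-- **From characteristic zero to large characteristic.** -/
theorem bnd_of_zero (m : ℕ) (x : ℝ)
    (h0 : ∀ (K : Type) [Field K] [IsAlgClosed K] [CharZero K] (A : Type) [CommRing A]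
      [Algebra K A] [Module.Finite K A] [IsLocalRing A], Module.finrank K A = m + 1 →
        rate K A ≤ x) (η : ℝ) (hη : 0 < η) :
    ∃ N : ℕ, ∀ p : ℕ, N ≤ p → ∀ (k : Type) [Field k] [IsAlgClosed k] [CharP k p],
      Bnd k m (x + η) N := by
  classical
  by_contra hcon
  push Not at hcon
  have h1 : ∀ N : ℕ, ∃ p : ℕ, N ≤ p ∧ ∃ (k : Type) (_ : Field k) (_ : IsAlgClosed k)
      (_ : CharP k p) (A : Type) (_ : CommRing A) (_ : Algebra k A)
      (v : Module.Basis (Fin (m + 1)) k A)
      (c : Fin (m + 1) × Fin (m + 1) × Fin (m + 1) → k), Str.IsStr 0 c A v ∧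
        Nilp 0 c (m + 1) ∧ ∀ n, 1 ≤ n → n ≤ N → (x + η) ^ n < mdeg k (Pow k A n) := by
    intro N
    obtain ⟨p, hp, k, i1, i2, i3, hk⟩ := hcon N
    unfold Bnd at hk
    push Not at hk
    obtain ⟨A, i4, i5, i6, i7, h2, h3⟩ := hk
    obtain ⟨c, v, h4, h5⟩ := exists_basis A m h2
    exact ⟨p, hp, k, i1, i2, i3, A, i4, i5, v, c, h4, h5 i7, h3⟩
  choose p hp k i1 i2 i3 A i4 i5 v c h4 h5 h6 using h1
  let U : Ultrafilter ℕ := hyperfilter ℕ
  have hU : (U : Filter ℕ) ≤ atTop := by
    rw [← Nat.cofinite_eq_atTop]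
    exact hyperfilter_le_cofinite
  have hch : CharZero (UP k U) := up_charZero k U p i3 hp hU
  -- the ultraproduct of the algebras
  let ct : Fin (m + 1) × Fin (m + 1) × Fin (m + 1) → ∀ i, k i := fun q i => c i q
  have hev : ∀ i, ev i ∘ ct = c i := fun i => rfl
  have hA1 : IsAlgC 0 (um k U ∘ ct) :=
    isAlgC_iff.2 (Eventually.of_forall fun i => by rw [hev]; exact isAlgC_of_isStr (h4 i))
  have hA2 : Nilp 0 (um k U ∘ ct) (m + 1) :=
    nilp_iff.2 (Eventually.of_forall fun i => by rw [hev]; exact h5 i)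
  obtain ⟨B, j1, j2, w, hw⟩ := exists_algebra hA1
  have hfin : Module.Finite (UP k U) B := Module.Finite.of_basis w
  have hloc : IsLocalRing B := isLocalRing_of_nilp hw hA2
  have hrk : Module.finrank (UP k U) B = m + 1 := by
    rw [Module.finrank_eq_card_basis w, Fintype.card_fin]
  have hrate := h0 (UP k U) B hrk
  obtain ⟨n, hn, hn2⟩ := core hw hA2 (show rate (UP k U) B < x + η by linarith)
  have hlarge : ∀ᶠ i in (U : Filter ℕ), n ≤ i := hU (eventually_ge_atTop _)
  obtain ⟨i, hi1, hi2⟩ := (hn2.and hlarge).exists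
  have h7 := hi1 (A i) (v i) (by rw [hev]; exact h4 i)
  have h8 := h6 i n hn hi2
  linarith

section char

theorem exists_hom (K : Type) [Field K] [IsAlgClosed K] [CharZero K] :
    Nonempty (AlgebraicClosure ℚ →+* K) := by
  have h : Algebra.IsAlgebraic ℚ (AlgebraicClosure ℚ) := by
    have h1 := AlgebraicClosure.isAlgebraic ℚ
    have h2 : (AlgebraicClosure.instAlgebra ℚ : Algebra ℚ (AlgebraicClosure ℚ)) =
        DivisionRing.toRatAlgebra := Subsingleton.elim _ _
    rw [h2] at h1
    exact h1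
  exact ⟨(IsAlgClosed.lift : AlgebraicClosure ℚ →ₐ[ℚ] K).toRingHom⟩

variable (K L : Type) [Field K] [IsAlgClosed K] [Field L] [IsAlgClosed L]

theorem local_zero [CharZero K] [CharZero L] (m : ℕ) (x : ℝ)
    (h : ∀ (A : Type) [CommRing A] [Algebra K A] [Module.Finite K A] [IsLocalRing A],
      Module.finrank K A = m + 1 → rate K A ≤ x) :
    ∀ (B : Type) [CommRing B] [Algebra L B] [Module.Finite L B] [IsLocalRing B],
      Module.finrank L B = m + 1 → rate L B ≤ x := by
  obtain ⟨f⟩ := exists_hom K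
  obtain ⟨g⟩ := exists_hom L
  let _ : Algebra (AlgebraicClosure ℚ) K := f.toAlgebra
  let _ : Algebra (AlgebraicClosure ℚ) L := g.toAlgebra
  exact (local_iff (AlgebraicClosure ℚ) L m x).1 ((local_iff (AlgebraicClosure ℚ) K m x).2 h)

theorem all_zero [CharZero K] [CharZero L] (d : ℕ) (x : ℝ)
    (h : ∀ (A : Type) [CommRing A] [Algebra K A] [Module.Finite K A] [Nontrivial A],
      Module.finrank K A = d → rate K A ≤ x) :
    ∀ (B : Type) [CommRing B] [Algebra L B] [Module.Finite L B] [Nontrivial B],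
      Module.finrank L B = d → rate L B ≤ x := by
  obtain ⟨f⟩ := exists_hom K
  obtain ⟨g⟩ := exists_hom L
  let _ : Algebra (AlgebraicClosure ℚ) K := f.toAlgebra
  let _ : Algebra (AlgebraicClosure ℚ) L := g.toAlgebra
  exact (all_iff (AlgebraicClosure ℚ) L d x).1 ((all_iff (AlgebraicClosure ℚ) K d x).2 h)

theorem all_prime (p : ℕ) [Fact p.Prime] [CharP K p] [CharP L p] (d : ℕ) (x : ℝ)
    (h : ∀ (A : Type) [CommRing A] [Algebra K A] [Module.Finite K A] [Nontrivial A],
      Module.finrank K A = d → rate K A ≤ x) :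
    ∀ (B : Type) [CommRing B] [Algebra L B] [Module.Finite L B] [Nontrivial B],
      Module.finrank L B = d → rate L B ≤ x := by
  let _ : Algebra (ZMod p) K := ZMod.algebra K p
  let _ : Algebra (ZMod p) L := ZMod.algebra L p
  let _ : Algebra (AlgebraicClosure (ZMod p)) K :=
    (IsAlgClosed.lift : AlgebraicClosure (ZMod p) →ₐ[ZMod p] K).toRingHom.toAlgebra
  let _ : Algebra (AlgebraicClosure (ZMod p)) L :=
    (IsAlgClosed.lift : AlgebraicClosure (ZMod p) →ₐ[ZMod p] L).toRingHom.toAlgebra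
  exact (all_iff (AlgebraicClosure (ZMod p)) L d x).1
    ((all_iff (AlgebraicClosure (ZMod p)) K d x).2 h)

/-- **Only the characteristic matters.** -/
theorem all_char (p : ℕ) [CharP K p] [CharP L p] (d : ℕ) (x : ℝ)
    (h : ∀ (A : Type) [CommRing A] [Algebra K A] [Module.Finite K A] [Nontrivial A],
      Module.finrank K A = d → rate K A ≤ x) :
    ∀ (B : Type) [CommRing B] [Algebra L B] [Module.Finite L B] [Nontrivial B],
      Module.finrank L B = d → rate L B ≤ x := by
  rcases CharP.char_is_prime_or_zero K p with hp | rfl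
  · have : Fact p.Prime := ⟨hp⟩
    exact all_prime K L p d x h
  · have h1 : CharZero K := CharP.charP_to_charZero K
    have h2 : CharZero L := CharP.charP_to_charZero L
    exact all_zero K L d x h

end char

/-- **From large characteristic to characteristic zero.** -/
theorem zero_of_bnd (m : ℕ) (x : ℝ) (hx0 : 0 ≤ x) (N : ℕ)
    (hb : ∀ B : ℕ, ∃ p : ℕ, B ≤ p ∧ ∃ (k : Type) (_ : Field k) (_ : IsAlgClosed k)
      (_ : CharP k p), Bnd k m x N)
    (L : Type) [Field L] [IsAlgClosed L] [CharZero L] (A : Type) [CommRing A] [Algebra L A]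
    [Module.Finite L A] [IsLocalRing A] (hA : Module.finrank L A = m + 1) : rate L A ≤ x := by
  classical
  choose p hp k i1 i2 i3 hk using hb
  let U : Ultrafilter ℕ := hyperfilter ℕ
  have hU : (U : Filter ℕ) ≤ atTop := by
    rw [← Nat.cofinite_eq_atTop]
    exact hyperfilter_le_cofinite
  let K := UP k U
  have hch : CharZero K := up_charZero k U p i3 hp hU
  have hinf : ∀ i, Infinite (k i) := fun i => IsAlgClosed.instInfinite
  refine local_zero K L m x (fun B _ _ _ _ hrk => ?_) A hA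
  have hr1 : (1 : ℝ) ≤ rate K B := by
    refine le_trans ?_ (finrank_le_rate B)
    exact_mod_cast (Module.finrank_pos (R := K) (M := B))
  obtain ⟨c, w, hw, hn⟩ := exists_basis B m hrk
  have hn := hn inferInstance
  choose ct hct using fun q => um_surj k U (c q)
  have hct' : um k U ∘ ct = c := funext hct
  have hC := isAlgC_of_isStr hw
  rw [← hct', isAlgC_iff] at hC
  have hN := hn
  rw [← hct', nilp_iff] at hN
  -- the algebras over the fields `k i`
  have h1 : ∀ᶠ i in (U : Filter ℕ), ∃ n ∈ Set.Icc 1 N, ∃ (A : Type) (_ : CommRing A)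
      (_ : Algebra (k i) A) (v : Module.Basis (Fin (m + 1)) (k i) A),
        Str.IsStr 0 (ev i ∘ ct) A v ∧ Fam (k i) (Pow (k i) A n) ⌊x ^ n⌋₊ := by
    filter_upwards [hC, hN] with i h2 h3
    obtain ⟨A, j1, j2, v, hv⟩ := exists_algebra h2
    have hfin : Module.Finite (k i) A := Module.Finite.of_basis v
    have hloc : IsLocalRing A := isLocalRing_of_nilp hv h3
    obtain ⟨n, h4, h5, h6⟩ := hk i A (by rw [Module.finrank_eq_card_basis v, Fintype.card_fin])
    refine ⟨n, ⟨h4, h5⟩, A, j1, j2, v, hv, ?_⟩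
    have := finite_Pow (k := k i) (R := A) n
    obtain ⟨D', hD'⟩ := exists_fam (k := k i) (Pow (k i) A n)
    exact (mdeg_spec hD').mono (Nat.le_floor h6)
  rw [Ultrafilter.eventually_exists_mem_iff (Set.finite_Icc 1 N)] at h1
  obtain ⟨n, ⟨hn1, hn2⟩, h1⟩ := h1
  set D := ⌊x ^ n⌋₊ with hD
  -- the system of equations over `K`
  have hcov : ∀ M : ℕ, ∃ θ : Fin ((m + 1) * (M * n) + 1) → K,
      CovR 0 c (M * n) ((m + 1) * (M * n)) (gpt (D := D) (le_refl (M * n)) θ) := by
    intro M
    set g := (m + 1) * (M * n) with hg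
    let θ : Fin (g + 1) → ∀ i, k i := fun u i => Infinite.natEmbedding (k i) u
    refine ⟨um k U ∘ θ, ?_⟩
    rw [← hct']
    refine covR_down (F := k) (U := U) (c := ct)
      (pt := fun z => gpt (D := D) (le_refl (M * n)) θ z) ?_
    filter_upwards [h1] with i hi
    obtain ⟨A, j1, j2, v, hv, hf⟩ := hi
    exact covR_of_fam hv hf (M * n) M g le_rfl (fun u => θ u i) fun u u' huu =>
      Fin.ext ((Infinite.natEmbedding (k i)).injective huu)
  -- `D` is not zero
  have hD1 : 1 ≤ D := by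
    obtain ⟨i, A, j1, j2, v, hv, hf⟩ := h1.exists
    have hfin : Module.Finite (k i) A := Module.Finite.of_basis v
    have hnt : Nontrivial A := ⟨⟨v 0, 0, v.ne_zero 0⟩⟩
    exact (one_le_mdeg_pow (k := k i) A n).trans (mdeg_le hf)
  have h2 := rate_pow_le_of_covR hw hn n D hD1 hcov
  have h3 : rate K B ^ n ≤ x ^ n := h2.trans (Nat.floor_le (pow_nonneg hx0 n))
  exact le_of_pow_le_pow_left₀ (by omega) hx0 h3


/-- integral structure constants over a field -/
theorem isStr_int {K : Type} [Field K] {ι : Type} [Fintype ι] [DecidableEq ι] {o : ι}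
    {c : ι × ι × ι → ℤ} {A : Type} [CommRing A] [Algebra K A] {v : Module.Basis ι K A} {e : ℕ}
    [CharZero K] (h : Str.IsStr o (Int.castRingHom K ∘ c) A v)
    (hn : Nilp o (Int.castRingHom K ∘ c) e) : IsAlgC o c ∧ Nilp o c e := by
  have hker : ∀ x : ℤ, Int.castRingHom K x = 0 → RingHom.id ℤ x = 0 := by
    intro x hx
    exact Int.cast_eq_zero.1 hx
  exact ⟨isAlgC_of_ker (Int.castRingHom K) (RingHom.id ℤ) hker (isAlgC_of_isStr h),
    nilp_of_ker (Int.castRingHom K) (RingHom.id ℤ) hker hn⟩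

/-- **Reduction modulo large primes** of a local scheme over the integers. -/
theorem rate_mod {m e : ℕ} (c : Fin (m + 1) × Fin (m + 1) × Fin (m + 1) → ℤ) {K : Type} [Field K]
    [IsAlgClosed K] [CharZero K] {B : Type} [CommRing B] [Algebra K B]
    {w : Module.Basis (Fin (m + 1)) K B} (h : Str.IsStr 0 (Int.castRingHom K ∘ c) B w)
    (hn : Nilp 0 (Int.castRingHom K ∘ c) e) (η : ℝ) (hη : 0 < η) :
    ∃ N : ℕ, ∀ p : ℕ, N ≤ p → ∀ (k : Type) [Field k] [IsAlgClosed k] [CharP k p] (A : Type)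
      [CommRing A] [Algebra k A] (v : Module.Basis (Fin (m + 1)) k A),
        Str.IsStr 0 (Int.castRingHom k ∘ c) A v → rate k A ≤ rate K B + η := by
  classical
  obtain ⟨hc1, hc2⟩ := isStr_int h hn
  by_contra hcon
  push Not at hcon
  choose p hp k i1 i2 i3 A i4 i5 v h4 h6 using hcon
  let U : Ultrafilter ℕ := hyperfilter ℕ
  have hU : (U : Filter ℕ) ≤ atTop := by
    rw [← Nat.cofinite_eq_atTop]
    exact hyperfilter_le_cofinite
  have hch : CharZero (UP k U) := up_charZero k U p i3 hp hU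
  let ct : Fin (m + 1) × Fin (m + 1) × Fin (m + 1) → ∀ i, k i := Int.castRingHom _ ∘ c
  have hev : ∀ i, ev i ∘ ct = Int.castRingHom (k i) ∘ c := fun i => rfl
  have hum : um k U ∘ ct = Int.castRingHom (UP k U) ∘ c := by
    funext q
    change um k U (Int.castRingHom (∀ i, k i) (c q)) = Int.castRingHom (UP k U) (c q)
    simp
  have hA1 : IsAlgC 0 (um k U ∘ ct) := by
    rw [hum]
    exact isAlgC_of_ker (RingHom.id ℤ) (Int.castRingHom (UP k U)) (fun x hx => by
      have hx' : x = 0 := hx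
      rw [hx', map_zero]) hc1
  have hA2 : Nilp 0 (um k U ∘ ct) e := by
    rw [hum]
    exact nilp_map (Int.castRingHom (UP k U)) hc2
  obtain ⟨B', j1, j2, w', hw'⟩ := exists_algebra hA1
  have hfin : Module.Finite (UP k U) B' := Module.Finite.of_basis w'
  -- the rate over the ultraproduct
  have hrate : rate (UP k U) B' ≤ rate K B := by
    obtain ⟨f⟩ := exists_hom K
    obtain ⟨g⟩ := exists_hom (UP k U)
    have hQ : IsAlgC 0 (Int.castRingHom (AlgebraicClosure ℚ) ∘ c) :=
      isAlgC_of_ker (RingHom.id ℤ) (Int.castRingHom (AlgebraicClosure ℚ)) (fun x hx => by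
        have hx' : x = 0 := hx
        rw [hx', map_zero]) hc1
    have hQn : Nilp 0 (Int.castRingHom (AlgebraicClosure ℚ) ∘ c) e :=
      nilp_map (Int.castRingHom (AlgebraicClosure ℚ)) hc2
    obtain ⟨B₀, j3, j4, w₀, hw₀⟩ := exists_algebra hQ
    have hf : f ∘ (Int.castRingHom (AlgebraicClosure ℚ) ∘ c) = Int.castRingHom K ∘ c := by
      funext q
      simp
    have hg : g ∘ (Int.castRingHom (AlgebraicClosure ℚ) ∘ c) =
        Int.castRingHom (UP k U) ∘ c := by
      funext q
      simp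
    have h7 := rate_ext_le g hQn hw₀ (B := B') (w := w') (by rw [hg, ← hum]; exact hw')
    have h8 := rate_ext_ge f hQn hw₀ (B := B) (w := w) (by rw [hf]; exact h)
    exact h7.trans h8
  obtain ⟨n, hn', hn2⟩ := core hw' hA2 (show rate (UP k U) B' < rate K B + η by linarith)
  obtain ⟨i, hi⟩ := hn2.exists
  have h9 := hi (A i) (v i) (by rw [hev]; exact h4 i)
  have hfinA : Module.Finite (k i) (A i) := Module.Finite.of_basis (v i)
  have hntA : Nontrivial (A i) := ⟨⟨v i 0, 0, (v i).ne_zero 0⟩⟩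
  have h10 := (rate_pow_le (k := k i) (A i) n).trans h9
  have hfinB : Module.Finite K B := Module.Finite.of_basis w
  have hntB : Nontrivial B := ⟨⟨w 0, 0, w.ne_zero 0⟩⟩
  have hr1 : (0 : ℝ) ≤ rate K B := (Nat.cast_nonneg _).trans (finrank_le_rate B)
  have h11 := le_of_pow_le_pow_left₀ (show n ≠ 0 by omega) (by linarith) h10
  have h12 := h6 i
  linarith

end Pool.Agent.Q180.FI
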