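import Pool.Agent.Q180.FI.Dense

/-!
# Ultraproducts of algebraically closed fields
-/

set_option autoImplicit false

namespace Pool.Agent.Q180.FI

open scoped TensorProduct PowerSeries Topology
open Pool.Agent.H826R3.SM Pool.Agent.TH671.DU Pool.Agent.Q180.SC Filter

variable (F : ℕ → Type) [∀ i, Field (F i)] (U : Ultrafilter ℕ)

/-- the sequences which vanish on a large set -/
def uId : Ideal (∀ i, F i) where
  carrier := {x | ∀ᶠ i in (U : Filter ℕ), x i = 0}
  add_mem' := by
    intro x y hx hy
    filter_upwards [hx, hy] with i h1 h2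
    rw [Pi.add_apply, h1, h2, add_zero]
  zero_mem' := by
    filter_upwards with i
    rfl
  smul_mem' := by
    intro a x hx
    filter_upwards [hx] with i h1
    rw [smul_eq_mul, Pi.mul_apply, h1, mul_zero]

/-- the ultraproduct -/
abbrev UP : Type := (∀ i, F i) ⧸ uId F U

/-- the quotient map -/
abbrev um : (∀ i, F i) →+* UP F U := Ideal.Quotient.mk (uId F U)

theorem um_eq_zero (x : ∀ i, F i) : um F U x = 0 ↔ ∀ᶠ i in (U : Filter ℕ), x i = 0 :=
  Ideal.Quotient.eq_zero_iff_mem

theorem um_surj (x : UP F U) : ∃ y, um F U y = x := Ideal.Quotient.mk_surjective x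

instance uId_isMaximal : (uId F U).IsMaximal := by
  rw [Ideal.isMaximal_iff]
  constructor
  · intro h1
    have h2 : ∀ᶠ i in (U : Filter ℕ), (1 : ∀ i, F i) i = 0 := h1
    obtain ⟨i, hi⟩ := h2.exists
    exact one_ne_zero hi
  · intro J x hJ hx hxJ
    have h1 : ∀ᶠ i in (U : Filter ℕ), x i ≠ 0 := by
      rw [Ultrafilter.eventually_not]
      exact hx
    have h2 : x * (fun i => (x i)⁻¹) - 1 ∈ uId F U := by
      change ∀ᶠ i in (U : Filter ℕ), _
      filter_upwards [h1] with i hi
      change x i * (x i)⁻¹ - 1 = 0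
      rw [mul_inv_cancel₀ hi, sub_self]
    have h3 : (1 : ∀ i, F i) = x * (fun i => (x i)⁻¹) - (x * (fun i => (x i)⁻¹) - 1) := by ring
    rw [h3]
    exact J.sub_mem (J.mul_mem_right _ hxJ) (hJ h2)

noncomputable instance : Field (UP F U) := Ideal.Quotient.field _

theorem up_charZero (p : ℕ → ℕ) (hp : ∀ i, CharP (F i) (p i)) (hge : ∀ i, i ≤ p i)
    (hU : (U : Filter ℕ) ≤ atTop) : CharZero (UP F U) := by
  refine charZero_of_inj_zero fun n hn => ?_
  by_contra h0
  have h1 : um F U (n : ∀ i, F i) = 0 := by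
    rw [map_natCast]
    exact hn
  rw [um_eq_zero] at h1
  have h2 : ∀ᶠ i in (U : Filter ℕ), n < i := hU (eventually_gt_atTop n)
  obtain ⟨i, h3, h4⟩ := (h1.and h2).exists
  have h5 : ((n : ℕ) : F i) = 0 := by
    rw [← h3]
    rfl
  have := hp i
  have h6 := (CharP.cast_eq_zero_iff (F i) (p i) n).1 h5
  have h7 := Nat.le_of_dvd (Nat.pos_of_ne_zero h0) h6
  have h8 := hge i
  omega

open Polynomial in
instance up_isAlgClosed [∀ i, IsAlgClosed (F i)] : IsAlgClosed (UP F U) := by
  refine IsAlgClosed.of_exists_root _ fun P hP hirr => ?_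
  have hdeg : 0 < P.natDegree := hirr.natDegree_pos
  choose a ha using fun j => um_surj F U (P.coeff j)
  -- the polynomials of the factors
  let Q : ∀ i, (F i)[X] := fun i => X ^ P.natDegree + ∑ j ∈ Finset.range P.natDegree, C (a j i) * X ^ j
  have hQ : ∀ i, (Q i).natDegree = P.natDegree := by
    intro i
    refine natDegree_eq_of_degree_eq_some ?_
    have h1 : (∑ j ∈ Finset.range P.natDegree, C (a j i) * X ^ j : (F i)[X]).degree <
        (P.natDegree : WithBot ℕ) := by
      refine (degree_sum_le _ _).trans_lt ?_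
      rw [Finset.sup_lt_iff (WithBot.bot_lt_coe _)]
      intro j hj
      refine (degree_C_mul_X_pow_le _ _).trans_lt ?_
      exact_mod_cast Finset.mem_range.1 hj
    change (X ^ P.natDegree + _ : (F i)[X]).degree = _
    rw [degree_add_eq_left_of_degree_lt]
    · rw [degree_X_pow]
    · rw [degree_X_pow]
      exact h1
  have hroot : ∀ i, ∃ x : F i, (Q i).eval x = 0 := by
    intro i
    refine IsAlgClosed.exists_root (Q i) ?_
    intro h0
    have h1 := natDegree_eq_zero_iff_degree_le_zero.2 h0.le
    rw [hQ i] at h1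
    omega
  choose x hx using hroot
  refine ⟨um F U x, ?_⟩
  have h1 : P.eval (um F U x) = um F U (x ^ P.natDegree +
      ∑ j ∈ Finset.range P.natDegree, a j * x ^ j) := by
    rw [eval_eq_sum_range, Finset.sum_range_succ, map_add, map_sum, map_pow, add_comm]
    congr 1
    · rw [hP.coeff_natDegree, one_mul]
    · refine Finset.sum_congr rfl fun j _ => ?_
      rw [map_mul, map_pow, ha]
  rw [h1, um_eq_zero]
  filter_upwards with i
  have h2 := hx i
  simp only [Q, eval_add, eval_pow, eval_X, eval_finsetSum, eval_mul, eval_C] at h2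
  rw [← h2, Pi.add_apply, Pi.pow_apply, Finset.sum_apply]
  rfl

end Pool.Agent.Q180.FI
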